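import Pool.Agent.H46.SP.ExistM
import Pool.Agent.H46.SP.Hyper2

/-! The relation between fields with at most one small prime. -/

set_option autoImplicit false
set_option linter.unusedSectionVars false

namespace Pool.Agent.H46.SP

open NumberField IsDedekindDomain Polynomial
open scoped Pointwise
open Pool.Agent.R433.MD (emb fx fx_eq_emb gal_unit)

section
variable {K L : Type} [Field K] [NumberField K] [Field L] [NumberField L] [Algebra K L]

theorem minpoly_eq {f : (𝓞 K)[X]} (hm : f.Monic) (hi : Irreducible f) {α : 𝓞 L}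
    (hα : aeval α f = 0) : minpoly K (α : L) = f.map (algebraMap (𝓞 K) K) := by
  symm
  refine minpoly.eq_of_irreducible_of_monic
    ((hm.irreducible_iff_irreducible_map_fraction_map).1 hi) ?_ (hm.map _)
  rw [aeval_map_algebraMap]
  exact aeval_coe hα

theorem emb_adjoin {f : (𝓞 K)[X]} (hm : f.Monic) (hi : Irreducible f) {α : 𝓞 L}
    (hα : aeval α f = 0) (g : Gal(L/K)) :
    emb (IntermediateField.adjoin K {(α : L)}) g =
      Nat.card {b : L // aeval b f = 0 ∧ g b = b} := by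
  have hint : IsIntegral K (α : L) := Algebra.IsIntegral.isIntegral _
  have hmin := minpoly_eq hm hi hα
  have hroot : ∀ b : L, b ∈ (minpoly K (α : L)).aroots L ↔ aeval b f = 0 := by
    intro b
    rw [mem_aroots, hmin, aeval_map_algebraMap]
    constructor
    · exact fun h => h.2
    · exact fun h => ⟨(hm.map _).ne_zero, h⟩
  have hgen : ∀ τ : IntermediateField.adjoin K {(α : L)} →ₐ[K] L,
      aeval (τ (IntermediateField.AdjoinSimple.gen K (α : L))) f = 0 := by
    intro τ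
    have h1 : aeval (IntermediateField.AdjoinSimple.gen K (α : L))
        (f.map (algebraMap (𝓞 K) K)) = 0 := by
      rw [← hmin, ← IntermediateField.minpoly_gen]
      exact minpoly.aeval _ _
    have h2 : aeval (τ (IntermediateField.AdjoinSimple.gen K (α : L)))
        (f.map (algebraMap (𝓞 K) K)) = 0 := by
      rw [aeval_algHom_apply, h1, map_zero]
    rwa [aeval_map_algebraMap] at h2
  have hext : ∀ τ τ' : IntermediateField.adjoin K {(α : L)} →ₐ[K] L,
      τ (IntermediateField.AdjoinSimple.gen K (α : L)) =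
        τ' (IntermediateField.AdjoinSimple.gen K (α : L)) → τ = τ' := by
    intro τ τ' h
    refine (IntermediateField.adjoin.powerBasis hint).algHom_ext ?_
    rw [IntermediateField.adjoin.powerBasis_gen]
    exact h
  refine Nat.card_congr (Equiv.ofBijective
    (fun τ => ⟨τ.1 (IntermediateField.AdjoinSimple.gen K (α : L)), hgen τ.1, τ.2 _⟩) ⟨?_, ?_⟩)
  · intro τ τ' h
    exact Subtype.ext (hext _ _ (congrArg (fun z => z.1) h))
  · rintro ⟨b, hb, hgb⟩
    let τ := (IntermediateField.algHomAdjoinIntegralEquiv K hint).symm ⟨b, (hroot b).2 hb⟩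
    have hτ : τ (IntermediateField.AdjoinSimple.gen K (α : L)) = b :=
      IntermediateField.algHomAdjoinIntegralEquiv_symm_apply_gen K hint _
    have h2 : (g : L →ₐ[K] L).comp τ = τ := by
      apply hext
      change g (τ _) = τ _
      rw [hτ, hgb]
    exact ⟨⟨τ, fun x => AlgHom.congr_fun h2 x⟩, Subtype.ext hτ⟩

end

section
variable {K M L : Type} [Field K] [NumberField K] [Field M] [NumberField M] [Field L]
  [NumberField L] [Algebra K M] [Algebra M L] [Algebra K L] [IsScalarTower K M L]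
  [IsGalois K M] [IsGalois K L]

theorem card_transfer {f : (𝓞 K)[X]} (hm : f.Monic) (hs : (f.map (algebraMap (𝓞 K) M)).Splits)
    (g : Gal(L/K)) : Nat.card {b : L // aeval b f = 0 ∧ g b = b} =
      Nat.card {b : M // aeval b f = 0 ∧ res K M g b = b} := by
  symm
  have t0 : IsScalarTower (𝓞 K) M L := IsScalarTower.of_algebraMap_eq fun x =>
    IsScalarTower.algebraMap_apply K M L (x : K)
  have hmap : f.map (algebraMap (𝓞 K) L) = (f.map (algebraMap (𝓞 K) M)).map (algebraMap M L) := by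
    rw [Polynomial.map_map, ← IsScalarTower.algebraMap_eq]
  have h1 : ∀ b : M, aeval b f = 0 ↔ aeval (algebraMap M L b) f = 0 := by
    intro b
    rw [aeval_algebraMap_apply, map_eq_zero_iff _ (algebraMap M L).injective]
  refine Nat.card_congr (Equiv.ofBijective
    (fun b => ⟨algebraMap M L b.1, (h1 _).1 b.2.1, ?_⟩) ⟨?_, ?_⟩)
  · rw [← res_apply (K := K) (M := M), b.2.2]
  · intro x y hxy
    have h5 : algebraMap M L x.1 = algebraMap M L y.1 := congrArg (fun z => z.1) hxy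
    exact Subtype.ext ((algebraMap M L).injective h5)
  · rintro ⟨b, hb, hgb⟩
    have h2 : b ∈ (algebraMap M L).range := by
      refine hs.mem_range_of_isRoot (hm.map _).ne_zero ?_
      rw [← hmap, IsRoot.def, eval_map_algebraMap, hb]
    obtain ⟨c, rfl⟩ := h2
    refine ⟨⟨c, (h1 c).2 hb, ?_⟩, rfl⟩
    apply (algebraMap M L).injective
    rw [res_apply, hgb]

omit [IsGalois K L] in
theorem exists_root {f : (𝓞 K)[X]} {n : ℕ} (hn : 0 < n) (hm : f.Monic) (hd : f.natDegree = n)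
    (hs : (f.map (algebraMap (𝓞 K) L)).Splits) : ∃ α : 𝓞 L, aeval α f = 0 := by
  obtain ⟨a, ha⟩ := hs.exists_eval_eq_zero (by
    rw [hm.degree_map, degree_eq_natDegree hm.ne_zero, hd]
    exact_mod_cast hn.ne')
  rw [eval_map_algebraMap] at ha
  obtain ⟨b, -, hb⟩ := exists_int hm ha
  exact ⟨b, hb⟩

/-- the first case -/
theorem case_one {X n : ℕ} {v : HeightOneSpectrum (𝓞 K)} {f : (𝓞 K)[X]} (hf : Good X n v f)
    (hn : 0 < n) (hs : (f.map (algebraMap (𝓞 K) M)).Splits) {m : HeightOneSpectrum (𝓞 M)}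
    (hm : m.asIdeal.under (𝓞 K) = v.asIdeal) {g : Gal(L/K)}
    (hg : res K M g • m.asIdeal = m.asIdeal) :
    ∃ F : IntermediateField K L, F ∈ Fam (K := K) (L := L) X ∧ (emb F g = 1 ∨ emb F g = n) := by
  have t0 : IsScalarTower (𝓞 K) M L := IsScalarTower.of_algebraMap_eq fun x =>
    IsScalarTower.algebraMap_apply K M L (x : K)
  have hmap : f.map (algebraMap (𝓞 K) L) = (f.map (algebraMap (𝓞 K) M)).map (algebraMap M L) := by
    rw [Polynomial.map_map, ← IsScalarTower.algebraMap_eq]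
  obtain ⟨α, hα⟩ := exists_root (L := L) hn hf.monic hf.deg (by
    rw [hmap]
    exact hs.map _)
  refine ⟨_, hf.mem_fam hα, ?_⟩
  rw [emb_adjoin hf.monic hf.irr hα, card_transfer (M := M) hf.monic hs]
  exact count_fixed hf.monic hf.deg hf.irr hf.root hs m hm _ hg

end

section
variable {K M L : Type} [Field K] [NumberField K] [Field M] [NumberField M] [Field L]
  [NumberField L] [Algebra K M] [Algebra M L] [Algebra K L] [IsScalarTower K M L]
  [IsGalois K M] [IsGalois K L]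

/-- inertia groups -/
theorem Data.inertia {X n : ℕ} {f : (𝓞 M)[X]}
    {m1 : HeightOneSpectrum (𝓞 K) → HeightOneSpectrum (𝓞 M)} (hD : Data K M L X n f m1)
    (hM : ∀ (w : HeightOneSpectrum (𝓞 M)) (u : HeightOneSpectrum (𝓞 K)),
      w.asIdeal.under (𝓞 K) = u.asIdeal → Nat.card (𝓞 K ⧸ u.asIdeal) ≤ X →
      ∀ β : Gal(M/K), (∀ x : 𝓞 M, β • x - x ∈ w.asIdeal) → β = 1)
    {w : HeightOneSpectrum (𝓞 L)} {u : HeightOneSpectrum (𝓞 K)}
    (hwu : w.asIdeal.under (𝓞 K) = u.asIdeal) (hu : Nat.card (𝓞 K ⧸ u.asIdeal) ≤ X)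
    {β : Gal(L/K)} (hβ : ∀ x : 𝓞 L, β • x - x ∈ w.asIdeal) : β = 1 := by
  have hres : ∀ (w' : HeightOneSpectrum (𝓞 L)), w'.asIdeal.under (𝓞 K) = u.asIdeal →
      ∀ γ : Gal(L/K), (∀ x : 𝓞 L, γ • x - x ∈ w'.asIdeal) → res K M γ = 1 := by
    intro w' hw' γ hγ
    obtain ⟨m, hm⟩ := exists_under (K := M) w'
    refine hM m u (by rw [← hm, under_under, hw']) hu _ fun x => ?_
    rw [← hm]
    change algebraMap (𝓞 M) (𝓞 L) (res K M γ • x - x) ∈ w'.asIdeal
    rw [map_sub, res_smul]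
    exact hγ _
  have hGM : IsGalois M L := IsGalois.tower_top_of_isGalois K M L
  refine hD.triv β (fun x => ?_) fun σ b hb => ?_
  · rw [← res_apply (K := K) (M := M), hres w hwu β hβ, AlgEquiv.one_apply]
  · -- the conjugate
    obtain ⟨w', hw'⟩ : ∃ w' : HeightOneSpectrum (𝓞 L), w'.asIdeal = σ⁻¹ • w.asIdeal :=
      ⟨⟨σ⁻¹ • w.asIdeal, inferInstance, smul_ne_bot w.ne_bot σ⁻¹⟩, rfl⟩
    have hw'u : w'.asIdeal.under (𝓞 K) = u.asIdeal := by
      rw [hw', ← hwu]
      ext x
      change algebraMap (𝓞 K) (𝓞 L) x ∈ σ⁻¹ • w.asIdeal ↔ algebraMap (𝓞 K) (𝓞 L) x ∈ w.asIdeal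
      rw [Ideal.mem_pointwise_smul_iff_inv_smul_mem]
      have h1 : σ⁻¹⁻¹ • algebraMap (𝓞 K) (𝓞 L) x = algebraMap (𝓞 K) (𝓞 L) x := by
        apply RingOfIntegers.coe_injective (K := L)
        exact (σ⁻¹⁻¹).commutes (x : K)
      rw [h1]
    have hγ : ∀ x : 𝓞 L, (σ⁻¹ * β * σ) • x - x ∈ w'.asIdeal := by
      intro x
      rw [hw', Ideal.mem_pointwise_smul_iff_inv_smul_mem, inv_inv, smul_sub, mul_smul, mul_smul,
        smul_inv_smul]
      exact hβ _
    obtain ⟨m, hm⟩ := exists_under (K := M) w'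
    have hmu : m.asIdeal.under (𝓞 K) = u.asIdeal := by
      rw [← hm, under_under, hw'u]
    have hsep : (f.map (Ideal.Quotient.mk m.asIdeal)).Separable := by
      by_cases h : m = m1 u
      · rw [h]
        exact PerfectField.separable_of_irreducible (K := 𝓞 M ⧸ (m1 u).asIdeal) (hD.first u hu)
      · exact (hD.second u hu m hmu h).separable
    have hresγ := hres w' hw'u _ hγ
    let γM : Gal(L/M) := AlgEquiv.ofRingEquiv (f := (σ⁻¹ * β * σ).toRingEquiv) (by
      intro x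
      change (σ⁻¹ * β * σ) (algebraMap M L x) = algebraMap M L x
      rw [← res_apply (K := K) (M := M), hresγ, AlgEquiv.one_apply])
    have hact : ∀ x : 𝓞 L, γM • x = (σ⁻¹ * β * σ) • x := by
      intro x
      apply RingOfIntegers.coe_injective (K := L)
      rfl
    have h2 : γM • b = b := root_eq_sep hsep w' hm (aeval_smul γM hb) hb (by
      rw [hact]
      exact Ideal.Quotient.eq.2 (hγ b))
    rw [hact] at h2
    have h1 := congrArg (fun x => σ • x) h2
    simp only [mul_smul, smul_inv_smul] at h1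
    exact h1

end

/-- the main construction -/
theorem exists_fields (K : Type) [Field K] [NumberField K] (X : ℕ) :
    ∃ (L : Type) (_ : Field L) (_ : NumberField L) (_ : Algebra K L), IsGalois K L ∧
      (∀ (w : HeightOneSpectrum (𝓞 L)) (u : HeightOneSpectrum (𝓞 K)),
        w.asIdeal.under (𝓞 K) = u.asIdeal → Nat.card (𝓞 K ⧸ u.asIdeal) ≤ X →
        ∀ β : Gal(L/K), (∀ x : 𝓞 L, β • x - x ∈ w.asIdeal) → β = 1) ∧
      ∀ (g : Gal(L/K)) (p : ℕ), p.Prime → ∃ F : IntermediateField K L,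
        F ∈ Fam (K := K) (L := L) X ∧ ¬ p ∣ emb F g := by
  classical
  obtain ⟨M, _, _, _, hGM, f1, f2, hg12, hs12, hgt⟩ := exists_M K X
  -- the prime numbers
  obtain ⟨q1, hq1le, hq1⟩ := Nat.exists_infinite_primes (X + Nat.card Gal(M/K) + 2)
  obtain ⟨q2, hq2le, hq2⟩ := Nat.exists_infinite_primes (q1 + 1)
  -- the primes of `M`
  choose m1 hm1 using fun v : HeightOneSpectrum (𝓞 K) => exists_above (M := K) (L := M) v
  let T := (finite_small K X).toFinset
  have hT : ∀ v : HeightOneSpectrum (𝓞 K), v ∈ T ↔ Nat.card (𝓞 K ⧸ v.asIdeal) ≤ X := fun v =>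
    Set.Finite.mem_toFinset _
  have hfin : {m : HeightOneSpectrum (𝓞 M) | ∃ v ∈ T, m.asIdeal.under (𝓞 K) = v.asIdeal ∧
      m ≠ m1 v}.Finite := by
    have h1 : (⋃ v ∈ T, {m : HeightOneSpectrum (𝓞 M) | m.asIdeal.under (𝓞 K) = v.asIdeal}).Finite := by
      refine Set.Finite.biUnion T.finite_toSet fun v _ => ?_
      refine Set.Finite.of_finite_image (f := fun m : HeightOneSpectrum (𝓞 M) => m.asIdeal)
        ((Set.finite_range (fun σ : Gal(M/K) => σ • (m1 v).asIdeal)).subset ?_) ?_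
      · rintro _ ⟨m, hm, rfl⟩
        obtain ⟨σ, hσ⟩ := Algebra.IsInvariant.exists_smul_of_under_eq (𝓞 K) (𝓞 M) Gal(M/K)
          (m1 v).asIdeal m.asIdeal ((hm1 v).trans (Eq.symm hm))
        exact ⟨σ, hσ.symm⟩
      · intro m _ m' _ h
        exact HeightOneSpectrum.ext h
    refine h1.subset ?_
    rintro m ⟨v, hv, hm, -⟩
    exact Set.mem_biUnion hv hm
  have hq1pos := hq1.pos
  have hq2pos := hq2.pos
  have hn3 : 3 ≤ q1 * q2 := by nlinarith
  obtain ⟨f, hfm, hfd, hf1, hf2⟩ := exists_two_kinds M (T.image m1) hfin.toFinset (by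
    rw [Finset.disjoint_left]
    intro m h h'
    obtain ⟨v, hv, rfl⟩ := Finset.mem_image.1 h
    obtain ⟨v', hv', h1, h2⟩ := (Set.Finite.mem_toFinset _).1 h'
    apply h2
    have h3 : v = v' := HeightOneSpectrum.ext (by rw [← hm1, h1])
    rw [h3]) hn3
  have hfM0 : f.map (algebraMap (𝓞 M) M) ≠ 0 := (hfm.map _).ne_zero
  obtain ⟨L, _, _, _, _, _, hGL, hsL, htriv⟩ := exists_L K M (f.map (algebraMap (𝓞 M) M)) hfM0
  have t0 : IsScalarTower (𝓞 M) M L := inferInstance
  have hsL' : (f.map (algebraMap (𝓞 M) L)).Splits := by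
    have h1 : f.map (algebraMap (𝓞 M) L) = (f.map (algebraMap (𝓞 M) M)).map (algebraMap M L) := by
      rw [Polynomial.map_map, ← IsScalarTower.algebraMap_eq]
    rw [h1]
    exact hsL
  have hD : Data K M L X (q1 * q2) f m1 :=
    { under := hm1
      monic := hfm
      deg := hfd
      first := fun v hv => hf1 _ (Finset.mem_image_of_mem _ ((hT v).2 hv))
      second := fun v hv m hm hne => hf2 m ((Set.Finite.mem_toFinset _).2 ⟨v, (hT v).2 hv, hm, hne⟩)
      root := exists_root (by omega) hfm hfd hsL'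
      triv := by
        intro β h1 h2
        refine htriv β h1 fun σ b hb => ?_
        rw [aeval_map_algebraMap] at hb
        obtain ⟨b', hb', hb2⟩ := exists_int hfm hb
        rw [← hb']
        exact congrArg (algebraMap (𝓞 L) L) (h2 σ b' hb2) }
  refine ⟨L, inferInstance, inferInstance, inferInstance, hGL, fun w u hwu hu β hβ =>
    hD.inertia (fun w u hwu hu β hβ => inertia_M hg12 hgt hwu hu hβ) hwu hu hβ, fun g p hp => ?_⟩
  by_cases hcase : ∃ (m : HeightOneSpectrum (𝓞 M)) (v : HeightOneSpectrum (𝓞 K)),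
      m.asIdeal.under (𝓞 K) = v.asIdeal ∧ Nat.card (𝓞 K ⧸ v.asIdeal) ≤ X ∧
      res K M g • m.asIdeal = m.asIdeal
  · obtain ⟨m, v, hmv, hvX, hgm⟩ := hcase
    obtain ⟨hg1, hg2⟩ := hg12 v
    obtain ⟨hs1, hs2⟩ := hs12 v hvX
    obtain ⟨F1, hF1, h1⟩ := case_one hg1 (by omega) hs1 hmv hgm
    obtain ⟨F2, hF2, h2⟩ := case_one hg2 (by omega) hs2 hmv hgm
    by_cases hp1 : p ∣ emb F1 g
    · refine ⟨F2, hF2, fun hp2 => ?_⟩
      rcases h1 with h1 | h1
      · rw [h1] at hp1
        exact hp.one_lt.ne' (Nat.dvd_one.1 hp1)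
      · rcases h2 with h2 | h2
        · rw [h2] at hp2
          exact hp.one_lt.ne' (Nat.dvd_one.1 hp2)
        · rw [h1] at hp1
          rw [h2] at hp2
          have h3 := Nat.dvd_sub hp2 hp1
          have h4 : X + 4 - (X + 3) = 1 := by omega
          rw [h4] at h3
          exact hp.one_lt.ne' (Nat.dvd_one.1 h3)
    · exact ⟨F1, hF1, hp1⟩
  · push Not at hcase
    obtain ⟨H, hH, hcount⟩ := hyper_count2 hp g
    have hemb : ¬ p ∣ emb (IntermediateField.fixedField H) g := by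
      have h1 := fx_eq_emb (IntermediateField.fixedField H) g
      rw [IntermediateField.fixingSubgroup_fixedField] at h1
      rw [h1] at hcount
      exact_mod_cast hcount
    have hcardpos : 0 < Nat.card Gal(M/K) := Nat.card_pos
    have hno : ∃ q : ℕ, q.Prime ∧ q ∣ q1 * q2 ∧ X < 2 ^ q ∧ ¬ q ∣ Nat.card Gal(M/K) ∧ p ≠ q := by
      by_cases hpq : p = q1
      · refine ⟨q2, hq2, dvd_mul_left _ _, ?_, ?_, by omega⟩
        · exact (show X < q2 by omega).trans Nat.lt_two_pow_self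
        · intro h
          have := Nat.le_of_dvd hcardpos h
          omega
      · refine ⟨q1, hq1, dvd_mul_right _ _, ?_, ?_, hpq⟩
        · exact (show X < q1 by omega).trans Nat.lt_two_pow_self
        · intro h
          have := Nat.le_of_dvd hcardpos h
          omega
    obtain ⟨q, hq, hqn, hqX, hqM, hpq⟩ := hno
    refine ⟨IntermediateField.fixedField H, ?_, hemb⟩
    intro w w' hw
    exact absurd hw (hD.no_small hq hqn (by omega) hqX hqM
      (fun m v hmv hv => hcase m v hmv hv) hp hpq hH w)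

/-- **The relation.** -/
theorem exists_relation (K : Type) [Field K] [NumberField K] (X : ℕ) :
    ∃ (L : Type) (_ : Field L) (_ : NumberField L) (_ : Algebra K L), IsGalois K L ∧
      (∀ (w : HeightOneSpectrum (𝓞 L)) (u : HeightOneSpectrum (𝓞 K)),
        w.asIdeal.under (𝓞 K) = u.asIdeal → Nat.card (𝓞 K ⧸ u.asIdeal) ≤ X →
        ∀ β : Gal(L/K), (∀ x : 𝓞 L, β • x - x ∈ w.asIdeal) → β = 1) ∧
      ∃ (S : Finset (IntermediateField K L)) (n : IntermediateField K L → ℤ),
        (∀ F ∈ S, F ∈ Fam (K := K) (L := L) X) ∧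
        ∀ g : Gal(L/K), ∑ F ∈ S, n F * fx F.fixingSubgroup g = 1 := by
  obtain ⟨L, _, _, _, hG, hin, h⟩ := exists_fields K X
  refine ⟨L, inferInstance, inferInstance, inferInstance, hG, hin, ?_⟩
  obtain ⟨m, S, n, hm0, hmP, hS, hsum⟩ := gal_unit (K := K) (L := L) (Fam X)
    (fun F hF F' hF' => Fam.sup hF hF') (fun F hF σ => Fam.conj hF σ) Set.univ
    (fun g => by
      obtain ⟨F, hF, h1⟩ := h g 2 Nat.prime_two
      refine ⟨F, hF, ?_⟩
      intro h0
      rw [h0] at h1
      exact h1 (dvd_zero 2))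
    (fun g p _ hp => h g p hp)
  have hm1 : m = 1 := by
    by_contra hne
    obtain ⟨p, hp, hpm⟩ := Nat.exists_prime_and_dvd hne
    exact hmP p trivial hp hpm
  refine ⟨S, n, hS, fun g => ?_⟩
  rw [hsum g, hm1]
  rfl

/-- every relation contains fields with primes of degree one -/
theorem exists_degree_one {K L : Type} [Field K] [NumberField K] [Field L] [NumberField L]
    [Algebra K L] [IsGalois K L] (S : Finset (IntermediateField K L))
    (n : IntermediateField K L → ℤ) (m : ℤ) (hm : m ≠ 0)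
    (h : ∀ g : Gal(L/K), ∑ F ∈ S, n F * (emb F g : ℤ) = m) (v : HeightOneSpectrum (𝓞 K)) :
    ∃ F ∈ S, n F ≠ 0 ∧ ∃ w : HeightOneSpectrum (𝓞 F), w.asIdeal.under (𝓞 K) = v.asIdeal ∧
      Nat.card (𝓞 F ⧸ w.asIdeal) = Nat.card (𝓞 K ⧸ v.asIdeal) := by
  classical
  obtain ⟨W, hW⟩ := exists_above (L := L) v
  have hfinW : Finite (𝓞 L ⧸ W.asIdeal) := inferInstance
  obtain ⟨σ, hσ⟩ := IsArithFrobAt.exists_of_isInvariant (𝓞 K) Gal(L/K) W.asIdeal
  have hσ' : ∀ x : 𝓞 L, σ • x - x ^ Nat.card (𝓞 K ⧸ v.asIdeal) ∈ W.asIdeal := by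
    intro x
    have h1 := hσ x
    rw [hW] at h1
    exact h1
  obtain ⟨F, hF, hne⟩ := Finset.exists_ne_zero_of_sum_ne_zero (by rw [h σ]; exact hm)
  have hn : n F ≠ 0 := fun h0 => hne (by rw [h0, zero_mul])
  have hemb : emb F σ ≠ 0 := fun h0 => hne (by rw [h0, Nat.cast_zero, mul_zero])
  obtain ⟨⟨τ, hτ⟩⟩ : Nonempty {τ : F →ₐ[K] L // ∀ x, σ (τ x) = τ x} := by
    by_contra hemp
    rw [not_nonempty_iff] at hemp
    exact hemb (Nat.card_of_isEmpty)
  let φ : 𝓞 F →+* 𝓞 L := RingOfIntegers.mapRingHom (τ : F →+* L)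
  have hφ : ∀ x : 𝓞 F, σ • φ x = φ x := by
    intro x
    apply RingOfIntegers.coe_injective (K := L)
    exact hτ (x : F)
  have hφK : ∀ x : 𝓞 K, φ (algebraMap (𝓞 K) (𝓞 F) x) = algebraMap (𝓞 K) (𝓞 L) x := by
    intro x
    apply RingOfIntegers.coe_injective (K := L)
    exact τ.commutes (x : K)
  have hunder : (W.asIdeal.comap φ).under (𝓞 K) = v.asIdeal := by
    rw [← hW]
    ext x
    change φ (algebraMap (𝓞 K) (𝓞 F) x) ∈ W.asIdeal ↔ algebraMap (𝓞 K) (𝓞 L) x ∈ W.asIdeal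
    rw [hφK]
  have hprime : (W.asIdeal.comap φ).IsPrime := inferInstance
  have hne0 : W.asIdeal.comap φ ≠ ⊥ := by
    intro h0
    apply v.ne_bot
    rw [← hunder, h0, Ideal.under, ← RingHom.ker_eq_comap_bot,
      (RingHom.injective_iff_ker_eq_bot _).1 (FaithfulSMul.algebraMap_injective (𝓞 K) (𝓞 F))]
  obtain ⟨w, hw⟩ : ∃ w : HeightOneSpectrum (𝓞 F), w.asIdeal = W.asIdeal.comap φ :=
    ⟨⟨_, hprime, hne0⟩, rfl⟩
  refine ⟨F, hF, hn, w, by rw [hw, hunder], ?_⟩
  have hlies : w.asIdeal.LiesOver v.asIdeal := ⟨by rw [hw, hunder]⟩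
  apply le_antisymm
  · have h1 : ∀ x : 𝓞 F ⧸ w.asIdeal, x ^ Nat.card (𝓞 K ⧸ v.asIdeal) = x := by
      intro x
      obtain ⟨x, rfl⟩ := Ideal.Quotient.mk_surjective x
      rw [← map_pow]
      symm
      rw [Ideal.Quotient.eq, hw]
      have h2 := hσ' (φ x)
      rw [hφ] at h2
      change φ (x - x ^ Nat.card (𝓞 K ⧸ v.asIdeal)) ∈ W.asIdeal
      rw [map_sub, map_pow]
      exact h2
    have hlt : 1 < Nat.card (𝓞 K ⧸ v.asIdeal) := Finite.one_lt_card
    let _ := Fintype.ofFinite (𝓞 F ⧸ w.asIdeal)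
    have h3 : (Finset.univ : Finset (𝓞 F ⧸ w.asIdeal)) ⊆
        (Polynomial.X ^ Nat.card (𝓞 K ⧸ v.asIdeal) - Polynomial.X :
          (𝓞 F ⧸ w.asIdeal)[X]).roots.toFinset := by
      intro x _
      rw [Multiset.mem_toFinset, mem_roots (FiniteField.X_pow_card_sub_X_ne_zero _ hlt), IsRoot.def,
        eval_sub, eval_pow, eval_X, h1, sub_self]
    have h4 := Finset.card_le_card h3
    rw [Finset.card_univ, Fintype.card_eq_nat_card] at h4
    refine h4.trans ((Multiset.toFinset_card_le _).trans ((card_roots' _).trans ?_))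
    rw [FiniteField.X_pow_card_sub_X_natDegree_eq _ hlt]
  · exact Nat.card_le_card_of_injective _
      (FaithfulSMul.algebraMap_injective (𝓞 K ⧸ v.asIdeal) (𝓞 F ⧸ w.asIdeal))

end Pool.Agent.H46.SP
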