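import Pool.Agent.H46.SP.CaseB

/-! The fields without small primes. -/

set_option autoImplicit false
set_option linter.unusedSectionVars false

namespace Pool.Agent.H46.SP

open NumberField IsDedekindDomain Polynomial
open scoped Pointwise

section
variable {K M L : Type} [Field K] [NumberField K] [Field M] [NumberField M] [Field L]
  [NumberField L] [Algebra K M] [Algebra M L] [Algebra K L] [IsScalarTower K M L]
  [IsGalois K M] [IsGalois K L]

/-- restriction -/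
noncomputable abbrev res (K M : Type) {L : Type} [Field K] [NumberField K] [Field M]
    [NumberField M] [Field L]
    [NumberField L] [Algebra K M] [Algebra M L] [Algebra K L] [IsScalarTower K M L]
    [IsGalois K M] : Gal(L/K) →* Gal(M/K) := AlgEquiv.restrictNormalHom M

theorem res_apply (σ : Gal(L/K)) (x : M) :
    algebraMap M L (res K M σ x) = σ (algebraMap M L x) :=
  AlgEquiv.restrictNormal_commutes σ M x

theorem coe_algebraMap (x : 𝓞 M) : ((algebraMap (𝓞 M) (𝓞 L) x : 𝓞 L) : L) =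
    algebraMap M L (x : M) := rfl

theorem res_smul (σ : Gal(L/K)) (x : 𝓞 M) :
    algebraMap (𝓞 M) (𝓞 L) (res K M σ • x) = σ • algebraMap (𝓞 M) (𝓞 L) x := by
  apply RingOfIntegers.coe_injective (K := L)
  exact res_apply σ (x : M)

theorem under_smul (σ : Gal(L/K)) (w : Ideal (𝓞 L)) :
    (σ • w).under (𝓞 M) = res K M σ • (w.under (𝓞 M)) := by
  ext x
  rw [Ideal.mem_pointwise_smul_iff_inv_smul_mem]
  change algebraMap (𝓞 M) (𝓞 L) x ∈ σ • w ↔ algebraMap (𝓞 M) (𝓞 L) ((res K M σ)⁻¹ • x) ∈ w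
  rw [Ideal.mem_pointwise_smul_iff_inv_smul_mem, ← map_inv, res_smul]

theorem card_quot_smul (σ : Gal(L/K)) (w : Ideal (𝓞 L)) :
    Nat.card (𝓞 L ⧸ (σ • w)) = Nat.card (𝓞 L ⧸ w) := by
  refine Nat.card_congr (Ideal.quotientEquiv (σ • w) w
    (MulSemiringAction.toRingEquiv Gal(L/K) (𝓞 L) σ⁻¹) ?_).toEquiv
  have h1 : w = σ⁻¹ • (σ • w) := (inv_smul_smul σ w).symm
  conv_lhs => rw [h1]
  rfl

theorem exists_above (m : HeightOneSpectrum (𝓞 M)) :
    ∃ w : HeightOneSpectrum (𝓞 L), w.asIdeal.under (𝓞 M) = m.asIdeal := by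
  obtain ⟨w, -, hwp, hw⟩ := Ideal.exists_ideal_over_prime_of_isIntegral (S := 𝓞 L) m.asIdeal ⊥
    (by
      rw [← RingHom.ker_eq_comap_bot, (RingHom.injective_iff_ker_eq_bot _).1
        (FaithfulSMul.algebraMap_injective (𝓞 M) (𝓞 L))]
      exact bot_le)
  refine ⟨⟨w, hwp, ?_⟩, hw⟩
  rintro rfl
  apply m.ne_bot
  rw [← hw, ← RingHom.ker_eq_comap_bot, (RingHom.injective_iff_ker_eq_bot _).1
      (FaithfulSMul.algebraMap_injective (𝓞 M) (𝓞 L))]

theorem under_under (w : Ideal (𝓞 L)) : (w.under (𝓞 M)).under (𝓞 K) = w.under (𝓞 K) := by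
  ext x
  change algebraMap (𝓞 M) (𝓞 L) (algebraMap (𝓞 K) (𝓞 M) x) ∈ w ↔ algebraMap (𝓞 K) (𝓞 L) x ∈ w
  rw [← IsScalarTower.algebraMap_apply]

/-- the data -/
structure Data (K M L : Type) [Field K] [NumberField K] [Field M] [NumberField M] [Field L]
    [NumberField L] [Algebra K M] [Algebra M L] [Algebra K L] [IsScalarTower K M L]
    [IsGalois K M] [IsGalois K L] (X n : ℕ) (f : (𝓞 M)[X])
    (m1 : HeightOneSpectrum (𝓞 K) → HeightOneSpectrum (𝓞 M)) : Prop where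
  under : ∀ v, (m1 v).asIdeal.under (𝓞 K) = v.asIdeal
  monic : f.Monic
  deg : f.natDegree = n
  first : ∀ v : HeightOneSpectrum (𝓞 K), Nat.card (𝓞 K ⧸ v.asIdeal) ≤ X →
    Irreducible (f.map (Ideal.Quotient.mk (m1 v).asIdeal))
  second : ∀ v : HeightOneSpectrum (𝓞 K), Nat.card (𝓞 K ⧸ v.asIdeal) ≤ X →
    ∀ m : HeightOneSpectrum (𝓞 M), m.asIdeal.under (𝓞 K) = v.asIdeal → m ≠ m1 v →
      IsRootMul (f.map (Ideal.Quotient.mk m.asIdeal)) n
  root : ∃ b : 𝓞 L, aeval b f = 0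
  triv : ∀ β : Gal(L/K), (∀ x : M, β (algebraMap M L x) = algebraMap M L x) →
    (∀ (σ : Gal(L/K)) (b : 𝓞 L), aeval b f = 0 → β • (σ • b) = σ • b) → β = 1

variable {X n : ℕ} {f : (𝓞 M)[X]} {m1 : HeightOneSpectrum (𝓞 K) → HeightOneSpectrum (𝓞 M)}

theorem Data.card (hD : Data K M L X n f m1) {w : HeightOneSpectrum (𝓞 L)}
    {u : HeightOneSpectrum (𝓞 K)} (hwu : w.asIdeal.under (𝓞 K) = u.asIdeal)
    (hu : Nat.card (𝓞 K ⧸ u.asIdeal) ≤ X) :
    ∃ s : ℕ, Nat.card (𝓞 L ⧸ w.asIdeal) = s ^ n := by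
  obtain ⟨w1, hw1⟩ := exists_above (L := L) (m1 u)
  have h1 : w1.asIdeal.under (𝓞 K) = u.asIdeal := by
    rw [← under_under (M := M), hw1, hD.under]
  obtain ⟨σ, hσ⟩ := Algebra.IsInvariant.exists_smul_of_under_eq (𝓞 K) (𝓞 L) Gal(L/K)
    w.asIdeal w1.asIdeal (hwu.trans h1.symm)
  have hlies : w1.asIdeal.LiesOver (m1 u).asIdeal := ⟨hw1.symm⟩
  obtain ⟨b, hb⟩ := hD.root
  obtain ⟨c, hc⟩ := card_eq (k := 𝓞 M ⧸ (m1 u).asIdeal) (κ := 𝓞 L ⧸ w1.asIdeal) (hD.first u hu)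
    (aeval_mk w1.asIdeal (m1 u).asIdeal hb)
  rw [hD.monic.natDegree_map, hD.deg] at hc
  refine ⟨Nat.card (𝓞 M ⧸ (m1 u).asIdeal) ^ c, ?_⟩
  rw [← pow_mul, mul_comm c n, ← hc, hσ, card_quot_smul]

theorem pow_residue {w : Ideal (𝓞 L)} {u : Ideal (𝓞 K)} [w.LiesOver u] (g : Gal(L/K))
    (τ : (𝓞 L ⧸ w) ≃ₐ[𝓞 K ⧸ u] (𝓞 L ⧸ w))
    (hτ : ∀ x : 𝓞 L, τ (Ideal.Quotient.mk w x) = Ideal.Quotient.mk w (g • x)) (i : ℕ) (x : 𝓞 L) :
    (τ ^ i) (Ideal.Quotient.mk w x) = Ideal.Quotient.mk w (g ^ i • x) := by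
  induction i generalizing x with
  | zero => simp
  | succ i ih =>
    rw [pow_succ, pow_succ, AlgEquiv.mul_apply, hτ, ih, mul_smul]

theorem Data.fix_roots (hD : Data K M L X n f m1) {q : ℕ} (hq : q.Coprime (n - 1))
    {β : Gal(L/K)} (hβq : β ^ q = 1) (hβM : ∀ x : M, β (algebraMap M L x) = algebraMap M L x)
    {w : HeightOneSpectrum (𝓞 L)} (hβw : β • w.asIdeal = w.asIdeal)
    {u : HeightOneSpectrum (𝓞 K)} (hwu : w.asIdeal.under (𝓞 K) = u.asIdeal)
    (hu : Nat.card (𝓞 K ⧸ u.asIdeal) ≤ X) (hne : w.asIdeal.under (𝓞 M) ≠ (m1 u).asIdeal)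
    {b : 𝓞 L} (hb : aeval b f = 0) : β • b = b := by
  have hG : IsGalois M L := IsGalois.tower_top_of_isGalois K M L
  let βM : Gal(L/M) := AlgEquiv.ofRingEquiv (f := β.toRingEquiv) hβM
  have hact : ∀ x : 𝓞 L, βM • x = β • x := by
    intro x
    apply RingOfIntegers.coe_injective (K := L)
    rfl
  obtain ⟨m, hm⟩ := exists_under (K := M) w
  have hlies : w.asIdeal.LiesOver m.asIdeal := ⟨hm.symm⟩
  have hmu : m.asIdeal.under (𝓞 K) = u.asIdeal := by
    rw [← hm, under_under, hwu]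
  have hf2 := hD.second u hu m hmu (fun h => hne (by rw [hm, h]))
  have hw' : βM • w.asIdeal = w.asIdeal := by
    conv_rhs => rw [← hβw]
    rw [Ideal.pointwise_smul_def, Ideal.pointwise_smul_def]
    congr 1
  obtain ⟨τ, hτ⟩ := exists_residue_aut w.asIdeal m.asIdeal βM hw'
  have hτq : τ ^ q = 1 := by
    ext x
    obtain ⟨x, rfl⟩ := Ideal.Quotient.mk_surjective x
    rw [pow_residue βM τ hτ]
    have h1 : βM ^ q = 1 := by
      ext y
      have h2 : ∀ (i : ℕ) (z : L), (βM ^ i) z = (β ^ i) z := by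
        intro i
        induction i with
        | zero => intro z; rfl
        | succ i ih =>
          intro z
          rw [pow_succ, pow_succ, AlgEquiv.mul_apply, AlgEquiv.mul_apply, ih]
          rfl
      rw [h2, hβq]
      rfl
    rw [h1, one_smul]
    rfl
  have h3 := abs_coprime (k := 𝓞 M ⧸ m.asIdeal) (κ := 𝓞 L ⧸ w.asIdeal) hf2 τ
    (aeval_mk w.asIdeal m.asIdeal hb) hτq hq
  rw [hτ] at h3
  rw [← hact]
  exact root_eq hf2 w hm (aeval_smul βM hb) hb h3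

theorem Data.no_small (hD : Data K M L X n f m1) {q : ℕ} (hq : q.Prime) (hqn : q ∣ n)
    (hn : 0 < n) (hqX : X < 2 ^ q) (hqM : ¬ q ∣ Nat.card Gal(M/K)) {g : Gal(L/K)}
    (hg : ∀ (m : HeightOneSpectrum (𝓞 M)) (v : HeightOneSpectrum (𝓞 K)),
      m.asIdeal.under (𝓞 K) = v.asIdeal → Nat.card (𝓞 K ⧸ v.asIdeal) ≤ X →
      res K M g • m.asIdeal ≠ m.asIdeal)
    {H : Subgroup Gal(L/K)} {p : ℕ} (hp : p.Prime) (hpq : p ≠ q)
    (hH : ∀ h ∈ H, ∃ k : ℕ, h ^ p ^ k ∈ Subgroup.zpowers g) (w0 : Ideal (𝓞 L)) :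
    ¬ Small X (IntermediateField.fixedField H) w0 := by
  rintro ⟨hw1, hw2, hw3⟩
  have hqf : Fact q.Prime := ⟨hq⟩
  set F := IntermediateField.fixedField H with hF
  obtain ⟨w, rfl⟩ : ∃ w : HeightOneSpectrum (𝓞 L), w.asIdeal = w0 := ⟨⟨w0, hw1, hw2⟩, rfl⟩
  obtain ⟨u, hwu⟩ := exists_under (K := K) w
  have hliesu : w.asIdeal.LiesOver u.asIdeal := ⟨hwu.symm⟩
  have hu : Nat.card (𝓞 K ⧸ u.asIdeal) ≤ X := (card_below_le F w u).trans hw3
  obtain ⟨s, hs⟩ := hD.card hwu hu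
  -- the residue field of `F`
  obtain ⟨P, hP⟩ := exists_under (K := F) w
  have hliesP : w.asIdeal.LiesOver P.asIdeal := ⟨hP.symm⟩
  have hPX : Nat.card (𝓞 F ⧸ P.asIdeal) ≤ X := by
    have h1 : Nat.card ((RF F).map (Ideal.Quotient.mk w.asIdeal)) ≤ X := hw3
    rw [card_map, hP] at h1
    exact h1
  have hfr : Nat.card (𝓞 L ⧸ w.asIdeal) = Nat.card (𝓞 F ⧸ P.asIdeal) ^
      Module.finrank (𝓞 F ⧸ P.asIdeal) (𝓞 L ⧸ w.asIdeal) :=
    Module.natCard_eq_pow_finrank (K := 𝓞 F ⧸ P.asIdeal) (V := 𝓞 L ⧸ w.asIdeal)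
  have hpp : IsPrimePow (Nat.card (𝓞 F ⧸ P.asIdeal)) := by
    have := Fintype.ofFinite (𝓞 F ⧸ P.asIdeal)
    rw [← Fintype.card_eq_nat_card]
    exact FiniteField.isPrimePow_card _
  have hqd : q ∣ Module.finrank (𝓞 F ⧸ P.asIdeal) (𝓞 L ⧸ w.asIdeal) := by
    obtain ⟨c, rfl⟩ := hqn
    refine dvd_of_card (s := s ^ c) hq hpp (hPX.trans_lt hqX) ?_
    rw [← hfr, hs, ← pow_mul, mul_comm]
  -- an element of order `q` in the decomposition group
  have hGF : IsGalois F L := inferInstance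
  have hsurj := Ideal.Quotient.stabilizerHom_surjective Gal(L/F) P.asIdeal w.asIdeal
  have hcard : q ∣ Nat.card (MulAction.stabilizer Gal(L/F) w.asIdeal) := by
    refine dvd_trans ?_ (Subgroup.card_dvd_of_surjective _ hsurj)
    have h1 : Nat.card ((𝓞 L ⧸ w.asIdeal) ≃ₐ[𝓞 F ⧸ P.asIdeal] (𝓞 L ⧸ w.asIdeal)) =
        Module.finrank (𝓞 F ⧸ P.asIdeal) (𝓞 L ⧸ w.asIdeal) :=
      IsGalois.card_aut_eq_finrank (𝓞 F ⧸ P.asIdeal) (𝓞 L ⧸ w.asIdeal)
    rw [h1]
    exact hqd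
  obtain ⟨⟨β', hβ'w⟩, hβ'q⟩ := exists_prime_orderOf_dvd_card' q hcard
  obtain ⟨β, hβ⟩ : ∃ β : Gal(L/K), ∀ x : L, β x = β' x := ⟨β'.restrictScalars K, fun x => rfl⟩
  have hpow : ∀ (i : ℕ) (x : L), (β ^ i) x = (β' ^ i) x := by
    intro i
    induction i with
    | zero => intro x; rfl
    | succ i ih =>
      intro x
      rw [pow_succ, pow_succ, AlgEquiv.mul_apply, AlgEquiv.mul_apply, ih, hβ]
  have hβ'q2 : β' ^ q = 1 := by
    have h1 := pow_orderOf_eq_one (⟨β', hβ'w⟩ : MulAction.stabilizer Gal(L/F) w.asIdeal)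
    rw [hβ'q] at h1
    exact congrArg Subtype.val h1
  have hβq : β ^ q = 1 := by
    ext x
    rw [hpow, hβ'q2]
    rfl
  have hβ1 : β ≠ 1 := by
    intro h
    have h2 : β' = 1 := by
      ext x
      rw [← hβ, h]
      rfl
    have h3 : (⟨β', hβ'w⟩ : MulAction.stabilizer Gal(L/F) w.asIdeal) = 1 := Subtype.ext h2
    rw [h3, orderOf_one] at hβ'q
    exact hq.one_lt.ne hβ'q
  have hβH : β ∈ H := by
    have h1 : β ∈ F.fixingSubgroup := by
      rw [IntermediateField.mem_fixingSubgroup_iff]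
      intro x hx
      rw [hβ]
      exact β'.commutes ⟨x, hx⟩
    rwa [hF, IntermediateField.fixingSubgroup_fixedField] at h1
  have hβw : β • w.asIdeal = w.asIdeal := by
    have h1 : β' • w.asIdeal = w.asIdeal := hβ'w
    conv_rhs => rw [← h1]
    rw [Ideal.pointwise_smul_def, Ideal.pointwise_smul_def]
    congr 1
    ext x
    exact hβ (x : L)
  -- it is a power of `g`
  have hβg : β ∈ Subgroup.zpowers g := by
    obtain ⟨k, hk⟩ := hH β hβH
    have h1 : (p ^ k).Coprime (orderOf β) := by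
      rw [orderOf_eq_prime hβq hβ1]
      exact Nat.Coprime.pow_left k ((Nat.coprime_primes hp hq).2 hpq)
    obtain ⟨j, hj⟩ := exists_pow_eq_self_of_coprime h1
    rw [← hj]
    exact Subgroup.pow_mem _ hk j
  have hcomm : Commute β g := by
    obtain ⟨i, rfl⟩ := hβg
    exact ((Commute.refl g).zpow_left i)
  have hβgw : β • g • w.asIdeal = g • w.asIdeal := by
    rw [← mul_smul, hcomm.eq, mul_smul, hβw]
  -- it is trivial on `M`
  have hβres : res K M β = 1 := by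
    have h1 : orderOf (res K M β) ∣ q := orderOf_dvd_of_pow_eq_one (by rw [← map_pow, hβq, map_one])
    have h2 : orderOf (res K M β) ∣ Nat.card Gal(M/K) := orderOf_dvd_natCard _
    rcases (Nat.dvd_prime hq).1 h1 with h3 | h3
    · exact orderOf_eq_one_iff.1 h3
    · rw [h3] at h2
      exact absurd h2 hqM
  obtain ⟨m, hm⟩ := exists_under (K := M) w
  have hmu : m.asIdeal.under (𝓞 K) = u.asIdeal := by
    rw [← hm, under_under, hwu]
  have hgm := hg m u hmu hu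
  have hcop : q.Coprime (n - 1) := by
    rw [Nat.Prime.coprime_iff_not_dvd hq]
    intro h1
    have h2 : q ∣ n - (n - 1) := Nat.dvd_sub hqn h1
    have h3 : n - (n - 1) = 1 := by omega
    rw [h3] at h2
    exact hq.one_lt.ne' (Nat.dvd_one.1 h2)
  have hprime : ∀ σ : Gal(L/K), ∃ w' : HeightOneSpectrum (𝓞 L), w'.asIdeal = σ • w.asIdeal :=
    fun σ => ⟨⟨σ • w.asIdeal, inferInstance, smul_ne_bot w.ne_bot σ⟩, rfl⟩
  have hbelow : ∀ σ : Gal(L/K), (σ • w.asIdeal).under (𝓞 K) = u.asIdeal := by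
    intro σ
    rw [← hwu]
    ext x
    change algebraMap (𝓞 K) (𝓞 L) x ∈ σ • w.asIdeal ↔ algebraMap (𝓞 K) (𝓞 L) x ∈ w.asIdeal
    rw [Ideal.mem_pointwise_smul_iff_inv_smul_mem]
    have h1 : σ⁻¹ • algebraMap (𝓞 K) (𝓞 L) x = algebraMap (𝓞 K) (𝓞 L) x := by
      apply RingOfIntegers.coe_injective (K := L)
      exact (σ⁻¹).commutes (x : K)
    rw [h1]
  refine hβ1 (hD.triv β ?_ ?_)
  · intro x
    rw [← res_apply (K := K) (M := M), hβres, AlgEquiv.one_apply]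
  · intro σ b hb
    have hconj : (σ⁻¹ * β * σ) • b = b := by
      have hq1 : (σ⁻¹ * β * σ) ^ q = 1 := by
        have := conj_pow (a := σ⁻¹) (b := β) (i := q)
        rw [inv_inv] at this
        rw [this, hβq, mul_one, inv_mul_cancel]
      have hM1 : ∀ x : M, (σ⁻¹ * β * σ) (algebraMap M L x) = algebraMap M L x := by
        intro x
        rw [← res_apply (K := K) (M := M), map_mul, map_mul, hβres, mul_one, ← map_mul,
          inv_mul_cancel, map_one, AlgEquiv.one_apply]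
      have hstab : ∀ τ : Gal(L/K), β • τ • w.asIdeal = τ • w.asIdeal →
          (σ⁻¹ * β * σ) • (σ⁻¹ * τ) • w.asIdeal = (σ⁻¹ * τ) • w.asIdeal := by
        intro τ hτ
        rw [mul_smul, mul_smul, mul_smul, smul_inv_smul, hτ]
      by_cases hc : ((σ⁻¹ * 1) • w.asIdeal).under (𝓞 M) = (m1 u).asIdeal
      · -- the other prime
        obtain ⟨w', hw'⟩ := hprime (σ⁻¹ * g)
        refine hD.fix_roots hcop hq1 hM1 (w := w') ?_ (u := u) ?_ hu ?_ hb
        · rw [hw']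
          exact hstab g hβgw
        · rw [hw', hbelow]
        · rw [hw', ← hc, under_smul (K := K), under_smul (K := K), hm, map_mul, map_mul, mul_smul,
            mul_smul]
          intro h
          have h1 := congrArg (fun I => (res K M σ⁻¹)⁻¹ • I) h
          simp only [inv_smul_smul, map_one, one_smul] at h1
          exact hgm h1
      · obtain ⟨w', hw'⟩ := hprime (σ⁻¹ * 1)
        refine hD.fix_roots hcop hq1 hM1 (w := w') ?_ (u := u) ?_ hu ?_ hb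
        · rw [hw']
          exact hstab 1 (by rw [one_smul, hβw])
        · rw [hw', hbelow]
        · rw [hw']
          exact hc
    have h1 := congrArg (fun x => σ • x) hconj
    simp only [mul_smul, smul_inv_smul] at h1
    exact h1

end

end Pool.Agent.H46.SP
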