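import Pool.Agent.H46.SP.Fam

/-! The fields with exactly one small prime. -/

set_option autoImplicit false
set_option linter.unusedSectionVars false

namespace Pool.Agent.H46.SP

open NumberField IsDedekindDomain Polynomial
open scoped Pointwise

section
variable {k κ : Type} [Field k] [Finite k] [Field κ] [Finite κ] [Algebra k κ]

theorem abs_root {f : k[X]} {n : ℕ} (hf : IsRootMul f n) {r : κ} (hr : aeval r f = 0)
    (S : Subring κ) (hk : ∀ x : k, algebraMap k κ x ∈ S) (hrS : r ∈ S)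
    (hX : Nat.card S < 2 ^ (n - 1)) : r = 0 := by
  obtain ⟨h, hi, hm, hd, hd2, he⟩ := hf
  rw [he, map_mul, aeval_X] at hr
  rcases mul_eq_zero.1 hr with h4 | h4
  · exact h4
  · exfalso
    have h5 := le_card hi h4 S hk hrS
    have h7 : n - 1 = h.natDegree := by omega
    rw [h7] at hX
    omega

theorem abs_irred {f : k[X]} {n : ℕ} (hi : Irreducible f) (hn : f.natDegree = n) {r : κ}
    (hr : aeval r f = 0)
    (S : Subring κ) (hk : ∀ x : k, algebraMap k κ x ∈ S) (hrS : r ∈ S) :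
    2 ^ (n - 1) ≤ Nat.card S := by
  have h5 := le_card hi hr S hk hrS
  rw [hn] at h5
  exact (Nat.pow_le_pow_right (by norm_num) (Nat.sub_le n 1)).trans h5

theorem abs_fix {f : k[X]} {n : ℕ} (hf : IsRootMul f n) (τ : κ ≃ₐ[k] κ) {r r' : κ}
    (hr : aeval r f = 0) (hr' : aeval r' f = 0) (h0 : r ≠ 0) (hτ : τ r = r) : τ r' = r' := by
  obtain ⟨h, hi, hm, hd, hd2, he⟩ := hf
  rw [he, map_mul, aeval_X] at hr hr'
  rcases mul_eq_zero.1 hr' with h4 | h4
  · rw [h4, map_zero]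
  · exact fix_of_root hi ((mul_eq_zero.1 hr).resolve_left h0) h4 τ hτ

theorem abs_coprime {f : k[X]} {n : ℕ} (hf : IsRootMul f n) (τ : κ ≃ₐ[k] κ) {r : κ}
    (hr : aeval r f = 0) {q : ℕ} (hτ : τ ^ q = 1) (hq : q.Coprime (n - 1)) : τ r = r := by
  obtain ⟨h, hi, hm, hd, hd2, he⟩ := hf
  rw [he, map_mul, aeval_X] at hr
  rcases mul_eq_zero.1 hr with h4 | h4
  · rw [h4, map_zero]
  · refine fix_of_coprime hi h4 τ hτ ?_
    have h7 : n - 1 = h.natDegree := by omega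
    rwa [← h7]

end

section
variable {K L : Type} [Field K] [NumberField K] [Field L] [NumberField L] [Algebra K L]

theorem exists_under (w : HeightOneSpectrum (𝓞 L)) :
    ∃ u : HeightOneSpectrum (𝓞 K), w.asIdeal.under (𝓞 K) = u.asIdeal := by
  refine ⟨⟨w.asIdeal.under (𝓞 K), inferInstance, ?_⟩, rfl⟩
  exact Ideal.IsIntegral.comap_ne_bot (𝓞 K) w.ne_bot

/-- reduction of roots -/
theorem aeval_mk (w : Ideal (𝓞 L)) (u : Ideal (𝓞 K)) [w.LiesOver u] {f : (𝓞 K)[X]} {α : 𝓞 L}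
    (hα : aeval α f = 0) :
    aeval (Ideal.Quotient.mk w α) (f.map (Ideal.Quotient.mk u)) = 0 := by
  have h1 : (algebraMap (𝓞 K ⧸ u) (𝓞 L ⧸ w)).comp (Ideal.Quotient.mk u) =
      (Ideal.Quotient.mk w).comp (algebraMap (𝓞 K) (𝓞 L)) := rfl
  rw [aeval_def, eval₂_map, h1, ← hom_eval₂, ← aeval_def, hα, map_zero]

theorem below_le (F : IntermediateField K L) (w : Ideal (𝓞 L)) (x : 𝓞 K) :
    Ideal.Quotient.mk w (algebraMap (𝓞 K) (𝓞 L) x) ∈ (RF F).map (Ideal.Quotient.mk w) := by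
  refine ⟨_, ?_, rfl⟩
  exact F.algebraMap_mem (x : K)

theorem below_le' (F : IntermediateField K L) (w : Ideal (𝓞 L)) (u : Ideal (𝓞 K)) [w.LiesOver u]
    (x : 𝓞 K ⧸ u) :
    algebraMap (𝓞 K ⧸ u) (𝓞 L ⧸ w) x ∈ (RF F).map (Ideal.Quotient.mk w) := by
  obtain ⟨x, rfl⟩ := Ideal.Quotient.mk_surjective x
  exact below_le F w x

theorem card_below_le (F : IntermediateField K L) (w : HeightOneSpectrum (𝓞 L))
    (u : HeightOneSpectrum (𝓞 K)) [w.asIdeal.LiesOver u.asIdeal] :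
    Nat.card (𝓞 K ⧸ u.asIdeal) ≤ Nat.card ((RF F).map (Ideal.Quotient.mk w.asIdeal)) := by
  refine Nat.card_le_card_of_injective
    (fun x => ⟨algebraMap (𝓞 K ⧸ u.asIdeal) (𝓞 L ⧸ w.asIdeal) x, below_le' F w.asIdeal _ x⟩) ?_
  intro x y hxy
  have h1 : algebraMap (𝓞 K ⧸ u.asIdeal) (𝓞 L ⧸ w.asIdeal) x =
      algebraMap (𝓞 K ⧸ u.asIdeal) (𝓞 L ⧸ w.asIdeal) y := congrArg (fun z => z.1) hxy
  exact FaithfulSMul.algebraMap_injective (𝓞 K ⧸ u.asIdeal) (𝓞 L ⧸ w.asIdeal) h1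

/-- the fields of the first kind -/
structure Good (X n : ℕ) (v : HeightOneSpectrum (𝓞 K)) (f : (𝓞 K)[X]) : Prop where
  monic : f.Monic
  deg : f.natDegree = n
  large : X < 2 ^ (n - 1)
  other : ∀ u : HeightOneSpectrum (𝓞 K), u ≠ v → Nat.card (𝓞 K ⧸ u.asIdeal) ≤ X →
    Irreducible (f.map (Ideal.Quotient.mk u.asIdeal))
  root : IsRootMul (f.map (Ideal.Quotient.mk v.asIdeal)) n
  irr : Irreducible f

theorem Good.small {X n : ℕ} {v : HeightOneSpectrum (𝓞 K)} {f : (𝓞 K)[X]} (hf : Good X n v f)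
    {α : 𝓞 L} (hα : aeval α f = 0) {w : HeightOneSpectrum (𝓞 L)} {F : IntermediateField K L}
    (hF : (α : L) ∈ F) (hw : Nat.card ((RF F).map (Ideal.Quotient.mk w.asIdeal)) ≤ X) :
    w.asIdeal.under (𝓞 K) = v.asIdeal ∧ α ∈ w.asIdeal := by
  obtain ⟨u, hu⟩ := exists_under (K := K) w
  have hlies : w.asIdeal.LiesOver u.asIdeal := ⟨hu.symm⟩
  have hcard := card_below_le F w u
  have hαS : Ideal.Quotient.mk w.asIdeal α ∈ (RF F).map (Ideal.Quotient.mk w.asIdeal) :=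
    ⟨α, hF, rfl⟩
  have hr := aeval_mk w.asIdeal u.asIdeal hα
  have hl := hf.large
  by_cases huv : u = v
  · subst huv
    refine ⟨hu, ?_⟩
    have h1 := abs_root (k := 𝓞 K ⧸ u.asIdeal) (κ := 𝓞 L ⧸ w.asIdeal) hf.root hr _
      (below_le' F w.asIdeal u.asIdeal) hαS (hw.trans_lt hl)
    exact Ideal.Quotient.eq_zero_iff_mem.1 h1
  · exfalso
    have h2 : (f.map (Ideal.Quotient.mk u.asIdeal)).natDegree = n := by
      rw [hf.monic.natDegree_map, hf.deg]
    have h1 := abs_irred (k := 𝓞 K ⧸ u.asIdeal) (κ := 𝓞 L ⧸ w.asIdeal)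
      (hf.other u huv (hcard.trans hw)) h2 hr _ (below_le' F w.asIdeal u.asIdeal) hαS
    omega

theorem sep_above {n : ℕ} {v : HeightOneSpectrum (𝓞 K)} {f : (𝓞 K)[X]}
    (hf : IsRootMul (f.map (Ideal.Quotient.mk v.asIdeal)) n) (w : HeightOneSpectrum (𝓞 L))
    (hw : w.asIdeal.under (𝓞 K) = v.asIdeal) :
    ((f.map (algebraMap (𝓞 K) (𝓞 L))).map (Ideal.Quotient.mk w.asIdeal)).Separable := by
  have hlies : w.asIdeal.LiesOver v.asIdeal := ⟨hw.symm⟩
  have h1 : (algebraMap (𝓞 K ⧸ v.asIdeal) (𝓞 L ⧸ w.asIdeal)).comp (Ideal.Quotient.mk v.asIdeal) =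
      (Ideal.Quotient.mk w.asIdeal).comp (algebraMap (𝓞 K) (𝓞 L)) := rfl
  rw [Polynomial.map_map, ← h1, ← Polynomial.map_map]
  exact hf.separable.map

theorem root_eq {n : ℕ} {v : HeightOneSpectrum (𝓞 K)} {f : (𝓞 K)[X]}
    (hf : IsRootMul (f.map (Ideal.Quotient.mk v.asIdeal)) n) (w : HeightOneSpectrum (𝓞 L))
    (hw : w.asIdeal.under (𝓞 K) = v.asIdeal) {α β : 𝓞 L} (hα : aeval α f = 0)
    (hβ : aeval β f = 0) (h : Ideal.Quotient.mk w.asIdeal α = Ideal.Quotient.mk w.asIdeal β) :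
    α = β := by
  refine sep_inj (Ideal.Quotient.mk w.asIdeal) (sep_above hf w hw) ?_ ?_ h
  · rw [eval_map_algebraMap, hα]
  · rw [eval_map_algebraMap, hβ]

variable [IsGalois K L]

/-- the action on the residue fields -/
theorem exists_residue_aut (w : Ideal (𝓞 L)) (u : Ideal (𝓞 K)) [w.LiesOver u] (g : Gal(L/K))
    (hg : g • w = w) : ∃ τ : (𝓞 L ⧸ w) ≃ₐ[𝓞 K ⧸ u] (𝓞 L ⧸ w), ∀ x : 𝓞 L,
      τ (Ideal.Quotient.mk w x) = Ideal.Quotient.mk w (g • x) := by
  refine ⟨Ideal.Quotient.stabilizerHom w u Gal(L/K) ⟨g, hg⟩, fun x => rfl⟩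

theorem aeval_smul (g : Gal(L/K)) {f : (𝓞 K)[X]} {α : 𝓞 L} (hα : aeval α f = 0) :
    aeval (g • α) f = 0 := by
  have h1 := aeval_algHom_apply (MulSemiringAction.toAlgHom (𝓞 K) (𝓞 L) g) α f
  rw [hα, map_zero] at h1
  exact h1

theorem Good.mem_fam {X n : ℕ} {v : HeightOneSpectrum (𝓞 K)} {f : (𝓞 K)[X]} (hf : Good X n v f)
    {α : 𝓞 L} (hα : aeval α f = 0) : IntermediateField.adjoin K {(α : L)} ∈ Fam (K := K) X := by
  intro w w' hw hw'
  have hmem : (α : L) ∈ IntermediateField.adjoin K {(α : L)} :=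
    IntermediateField.mem_adjoin_simple_self K _
  have hp := hw.1
  have hp' := hw'.1
  obtain ⟨h1, h2⟩ := hf.small hα (w := ⟨w, hp, hw.2.1⟩) hmem hw.2.2
  obtain ⟨h1', h2'⟩ := hf.small hα (w := ⟨w', hp', hw'.2.1⟩) hmem hw'.2.2
  constructor
  · obtain ⟨σ, hσ⟩ := Algebra.IsInvariant.exists_smul_of_under_eq (𝓞 K) (𝓞 L) Gal(L/K) w w'
      (h1.trans h1'.symm)
    exact ⟨σ, hσ.symm⟩
  · intro σ hσ
    have h3 : σ • α ∈ w' := by
      rw [← hσ]
      exact Ideal.smul_mem_pointwise_smul _ _ _ h2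
    have h4 : σ • α = α := by
      refine root_eq hf.root ⟨w', hp', hw'.2.1⟩ h1' (aeval_smul σ hα) hα ?_
      change Ideal.Quotient.mk w' (σ • α) = Ideal.Quotient.mk w' α
      rw [Ideal.Quotient.eq_zero_iff_mem.2 h3, Ideal.Quotient.eq_zero_iff_mem.2 h2']
    have h5 : σ (α : L) = α := congrArg (algebraMap (𝓞 L) L) h4
    have h6 : IntermediateField.adjoin K {(α : L)} ≤
        IntermediateField.fixedField (Subgroup.zpowers σ) := by
      rw [IntermediateField.adjoin_simple_le_iff, IntermediateField.mem_fixedField_iff]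
      rintro _ ⟨i, rfl⟩
      have h7 : σ ∈ MulAction.stabilizer Gal(L/K) (α : L) := h5
      exact Subgroup.zpow_mem _ h7 i
    have h8 := IntermediateField.fixingSubgroup_antitone h6
    rw [IntermediateField.fixingSubgroup_fixedField] at h8
    exact h8 (Subgroup.mem_zpowers σ)

omit [IsGalois K L] in
theorem exists_int {f : (𝓞 K)[X]} (hm : f.Monic) {b : L} (hb : aeval b f = 0) :
    ∃ b' : 𝓞 L, (b' : L) = b ∧ aeval b' f = 0 := by
  have h1 : IsIntegral (𝓞 K) b := ⟨f, hm, hb⟩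
  have h2 : IsIntegral ℤ b := isIntegral_trans b h1
  obtain ⟨b', hb'⟩ : ∃ b' : 𝓞 L, (b' : L) = b := ⟨⟨b, h2⟩, rfl⟩
  refine ⟨b', hb', ?_⟩
  apply RingOfIntegers.coe_injective (K := L)
  rw [map_zero, ← aeval_algebraMap_apply]
  have h3 : algebraMap (𝓞 L) L b' = b := hb'
  rw [h3, hb]

omit [IsGalois K L] in
theorem aeval_coe {f : (𝓞 K)[X]} {b : 𝓞 L} (hb : aeval b f = 0) : aeval (b : L) f = 0 := by
  rw [aeval_algebraMap_apply, hb, map_zero]

omit [IsGalois K L] in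
theorem card_roots {f : (𝓞 K)[X]} (hm : f.Monic) (hi : Irreducible f)
    (hs : (f.map (algebraMap (𝓞 K) L)).Splits) :
    Nat.card {b : 𝓞 L // aeval b f = 0} = f.natDegree := by
  classical
  have h1 : Irreducible (f.map (algebraMap (𝓞 K) K)) :=
    (hm.irreducible_iff_irreducible_map_fraction_map).1 hi
  have h2 : (f.map (algebraMap (𝓞 K) K)).Separable := h1.separable
  have h3 : ((f.map (algebraMap (𝓞 K) K)).map (algebraMap K L)) = f.map (algebraMap (𝓞 K) L) := by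
    rw [Polynomial.map_map, ← IsScalarTower.algebraMap_eq]
  have h4 := card_rootSet_eq_natDegree h2 (by rw [h3]; exact hs)
  rw [hm.natDegree_map] at h4
  rw [← h4, Fintype.card_eq_nat_card]
  refine Nat.card_congr (Equiv.ofBijective (fun b => ⟨(b.1 : L), ?_⟩) ⟨?_, ?_⟩)
  · rw [mem_rootSet]
    refine ⟨h1.ne_zero, ?_⟩
    rw [aeval_map_algebraMap]
    exact aeval_coe b.2
  · intro x y hxy
    have h5 : (x.1 : L) = y.1 := congrArg (fun z => z.1) hxy
    exact Subtype.ext (RingOfIntegers.coe_injective h5)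
  · rintro ⟨b, hb⟩
    rw [mem_rootSet] at hb
    have h6 : aeval b f = 0 := by
      rw [← aeval_map_algebraMap K]
      exact hb.2
    obtain ⟨b', h7, h8⟩ := exists_int hm h6
    exact ⟨⟨b', h8⟩, Subtype.ext h7⟩

omit [IsGalois K L] in
/-- one of the roots reduces to zero -/
theorem exists_zero_root {n : ℕ} {v : HeightOneSpectrum (𝓞 K)} {f : (𝓞 K)[X]} (hm : f.Monic)
    (hi : Irreducible f) (hf : IsRootMul (f.map (Ideal.Quotient.mk v.asIdeal)) n)
    (hs : (f.map (algebraMap (𝓞 K) L)).Splits) (w : HeightOneSpectrum (𝓞 L))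
    (hw : w.asIdeal.under (𝓞 K) = v.asIdeal) : ∃ b : 𝓞 L, aeval b f = 0 ∧ b ∈ w.asIdeal := by
  classical
  by_contra hne
  push Not at hne
  have hlies : w.asIdeal.LiesOver v.asIdeal := ⟨hw.symm⟩
  have hcard := card_roots hm hi hs
  have hn : f.natDegree ≠ 0 := by
    intro h0
    rw [Polynomial.eq_one_of_monic_natDegree_zero hm h0] at hi
    exact hi.not_isUnit isUnit_one
  have hfin : Finite {b : 𝓞 L // aeval b f = 0} := Nat.finite_of_card_ne_zero (by rw [hcard]; exact hn)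
  let _ := Fintype.ofFinite {b : 𝓞 L // aeval b f = 0}
  set P := (f.map (Ideal.Quotient.mk v.asIdeal)).map
    (algebraMap (𝓞 K ⧸ v.asIdeal) (𝓞 L ⧸ w.asIdeal)) with hP
  have hPm : P.Monic := (hm.map _).map _
  have hPd : P.natDegree = f.natDegree := by
    rw [(hm.map _).natDegree_map, hm.natDegree_map]
  have hmem : ∀ r : 𝓞 L ⧸ w.asIdeal, aeval r (f.map (Ideal.Quotient.mk v.asIdeal)) = 0 →
      r ∈ P.roots.toFinset := by
    intro r hr
    rw [Multiset.mem_toFinset, mem_roots hPm.ne_zero, IsRoot.def, eval_map_algebraMap]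
    exact hr
  let S : Finset (𝓞 L ⧸ w.asIdeal) := Finset.univ.image
    (fun b : {b : 𝓞 L // aeval b f = 0} => Ideal.Quotient.mk w.asIdeal b.1)
  have hS : S.card = f.natDegree := by
    rw [Finset.card_image_of_injective, Finset.card_univ, Fintype.card_eq_nat_card, hcard]
    intro x y hxy
    exact Subtype.ext (root_eq hf w hw x.2 y.2 hxy)
  have h0S : (0 : 𝓞 L ⧸ w.asIdeal) ∉ S := by
    intro h
    obtain ⟨b, -, hb⟩ := Finset.mem_image.1 h
    exact hne b.1 b.2 (Ideal.Quotient.eq_zero_iff_mem.1 hb)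
  have hsub : insert 0 S ⊆ P.roots.toFinset := by
    intro r hr
    rcases Finset.mem_insert.1 hr with rfl | hr
    · apply hmem
      obtain ⟨h, -, -, -, -, he⟩ := hf
      rw [he, map_mul, aeval_X, zero_mul]
    · obtain ⟨b, -, rfl⟩ := Finset.mem_image.1 hr
      exact hmem _ (aeval_mk w.asIdeal v.asIdeal b.2)
  have h1 := Finset.card_le_card hsub
  rw [Finset.card_insert_of_notMem h0S, hS] at h1
  have h2 := (Multiset.toFinset_card_le P.roots).trans (card_roots' P)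
  omega

theorem count_fixed {n : ℕ} {v : HeightOneSpectrum (𝓞 K)} {f : (𝓞 K)[X]} (hm : f.Monic)
    (hd : f.natDegree = n) (hi : Irreducible f)
    (hf : IsRootMul (f.map (Ideal.Quotient.mk v.asIdeal)) n)
    (hs : (f.map (algebraMap (𝓞 K) L)).Splits) (w : HeightOneSpectrum (𝓞 L))
    (hw : w.asIdeal.under (𝓞 K) = v.asIdeal) (g : Gal(L/K)) (hg : g • w.asIdeal = w.asIdeal) :
    Nat.card {b : L // aeval b f = 0 ∧ g b = b} = 1 ∨
      Nat.card {b : L // aeval b f = 0 ∧ g b = b} = n := by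
  have hlies : w.asIdeal.LiesOver v.asIdeal := ⟨hw.symm⟩
  have hcard : Nat.card {b : L // aeval b f = 0 ∧ g b = b} =
      Nat.card {b : {b : 𝓞 L // aeval b f = 0} // g • b.1 = b.1} := by
    symm
    refine Nat.card_congr (Equiv.ofBijective
      (fun b => ⟨(b.1.1 : L), aeval_coe b.1.2, congrArg (algebraMap (𝓞 L) L) b.2⟩) ⟨?_, ?_⟩)
    · intro x y hxy
      have h5 : (x.1.1 : L) = y.1.1 := congrArg (fun z => z.1) hxy
      exact Subtype.ext (Subtype.ext (RingOfIntegers.coe_injective h5))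
    · rintro ⟨b, hb, hgb⟩
      obtain ⟨b', h7, h8⟩ := exists_int hm hb
      refine ⟨⟨⟨b', h8⟩, ?_⟩, Subtype.ext h7⟩
      apply RingOfIntegers.coe_injective (K := L)
      change g (b' : L) = b'
      rw [h7, hgb]
  rw [hcard]
  obtain ⟨τ, hτ⟩ := exists_residue_aut w.asIdeal v.asIdeal g hg
  by_cases hall : ∀ b : {b : 𝓞 L // aeval b f = 0}, g • b.1 = b.1
  · right
    rw [← hd, ← card_roots hm hi hs]
    exact Nat.card_congr (Equiv.subtypeUnivEquiv hall)
  · left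
    push Not at hall
    obtain ⟨b0, hb0⟩ := hall
    have key : ∀ b : {b : 𝓞 L // aeval b f = 0}, g • b.1 = b.1 → b.1 ∈ w.asIdeal := by
      intro b hb
      by_contra hne
      apply hb0
      refine root_eq hf w hw (aeval_smul g b0.2) b0.2 ?_
      rw [← hτ]
      refine abs_fix (k := 𝓞 K ⧸ v.asIdeal) (κ := 𝓞 L ⧸ w.asIdeal) hf τ
        (aeval_mk w.asIdeal v.asIdeal b.2) (aeval_mk w.asIdeal v.asIdeal b0.2) ?_ ?_
      · intro h
        exact hne (Ideal.Quotient.eq_zero_iff_mem.1 h)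
      · rw [hτ, hb]
    obtain ⟨a, ha, haw⟩ := exists_zero_root hm hi hf hs w hw
    have hga : g • a = a := by
      refine root_eq hf w hw (aeval_smul g ha) ha ?_
      have h1 : g • a ∈ w.asIdeal := by
        rw [← hg]
        exact Ideal.smul_mem_pointwise_smul _ _ _ haw
      rw [Ideal.Quotient.eq_zero_iff_mem.2 h1, Ideal.Quotient.eq_zero_iff_mem.2 haw]
    rw [Nat.card_eq_one_iff_unique]
    refine ⟨⟨fun x y => ?_⟩, ⟨⟨⟨a, ha⟩, hga⟩⟩⟩
    apply Subtype.ext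
    apply Subtype.ext
    refine root_eq hf w hw x.1.2 y.1.2 ?_
    rw [Ideal.Quotient.eq_zero_iff_mem.2 (key x.1 x.2), Ideal.Quotient.eq_zero_iff_mem.2 (key y.1 y.2)]

end

end Pool.Agent.H46.SP
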