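import Pool.Agent.H46.SP.CaseA

/-! Existence of the large field. -/

set_option autoImplicit false
set_option linter.unusedSectionVars false

namespace Pool.Agent.H46.SP

open NumberField IsDedekindDomain Polynomial
open scoped Pointwise

theorem exists_L_aux (K M L0 Ω : Type) [Field K] [NumberField K] [Field M] [NumberField M]
    [Algebra K M] [IsGalois K M] [Field L0] [Algebra M L0] [Algebra K L0] [IsScalarTower K M L0]
    [FiniteDimensional K L0] [Field Ω] [IsAlgClosed Ω] [Algebra L0 Ω] [Algebra K Ω]
    [IsScalarTower K L0 Ω] [Normal K Ω] (f : M[X]) (hs : (f.map (algebraMap M L0)).Splits)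
    (hgen : IntermediateField.adjoin M (f.rootSet L0) = ⊤) (hf : f ≠ 0) :
    ∃ (L : Type) (_ : Field L) (_ : NumberField L) (_ : Algebra K L) (_ : Algebra M L)
      (_ : IsScalarTower K M L), IsGalois K L ∧ (f.map (algebraMap M L)).Splits ∧
      ∀ β : Gal(L/K), (∀ x : M, β (algebraMap M L x) = algebraMap M L x) →
        (∀ (σ : Gal(L/K)) (b : L), aeval b f = 0 → β (σ b) = σ b) → β = 1 := by
  classical
  let L := IntermediateField.normalClosure K L0 Ω
  have hfin : FiniteDimensional K L := inferInstance
  have hN : NumberField L := NumberField.of_module_finite K L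
  have hn : Normal K L := inferInstance
  have hne : Nonempty (L0 →ₐ[K] Ω) := ⟨IsScalarTower.toAlgHom K L0 Ω⟩
  have hnc : IsNormalClosure K L0 L := isNormalClosure_normalClosure K L0 Ω
  let _ : Algebra M L := ((algebraMap L0 L).comp (algebraMap M L0)).toAlgebra
  have t1 : IsScalarTower M L0 L := IsScalarTower.of_algebraMap_eq fun x => rfl
  have t2 : IsScalarTower K L0 L := inferInstance
  have t3 : IsScalarTower K M L := IsScalarTower.of_algebraMap_eq fun x => by
    rw [IsScalarTower.algebraMap_apply K L0 L, IsScalarTower.algebraMap_apply M L0 L,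
      IsScalarTower.algebraMap_apply K M L0]
  have hG : IsGalois K L := { to_isSeparable := inferInstance, to_normal := hn }
  refine ⟨L, inferInstance, hN, inferInstance, inferInstance, t3, hG, ?_, ?_⟩
  · have h1 : (f.map (algebraMap M L)) = (f.map (algebraMap M L0)).map (algebraMap L0 L) := by
      rw [Polynomial.map_map, ← IsScalarTower.algebraMap_eq]
    rw [h1]
    exact hs.map _
  · intro β hβM hβ
    have key : ∀ (σ : Gal(L/K)) (x : L0), β (σ (algebraMap L0 L x)) = σ (algebraMap L0 L x) := by
      intro σ
      let φ1 : L0 →+* L := (σ : L →+* L).comp (algebraMap L0 L)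
      let φ2 : L0 →+* L := (β : L →+* L).comp φ1
      let E : Subfield L0 := RingHom.eqLocusField φ2 φ1
      have hE : ∀ x : M, algebraMap M L0 x ∈ E := by
        intro x
        change β (σ (algebraMap L0 L (algebraMap M L0 x))) = σ (algebraMap L0 L (algebraMap M L0 x))
        rw [← IsScalarTower.algebraMap_apply]
        have h1 : σ (algebraMap M L x) = algebraMap M L (AlgEquiv.restrictNormal σ M x) :=
          (AlgEquiv.restrictNormal_commutes σ M x).symm
        rw [h1, hβM]
      let E' : IntermediateField M L0 := E.toIntermediateField hE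
      have h2 : (⊤ : IntermediateField M L0) ≤ E' := by
        rw [← hgen, IntermediateField.adjoin_le_iff]
        intro b hb
        rw [mem_rootSet] at hb
        change β (σ (algebraMap L0 L b)) = σ (algebraMap L0 L b)
        apply hβ
        rw [aeval_algebraMap_apply, hb.2, map_zero]
      intro x
      exact h2 (IntermediateField.mem_top (x := x))
    have h3 : ∀ x : L0, IntermediateField.adjoin K ((minpoly K x).rootSet L) ≤
        IntermediateField.fixedField (Subgroup.zpowers β) := by
      intro x
      rw [IntermediateField.adjoin_le_iff]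
      intro y hy
      rw [mem_rootSet] at hy
      have h4 : minpoly K (algebraMap L0 L x) = minpoly K y := by
        rw [minpoly.algebraMap_eq (algebraMap L0 L).injective]
        exact minpoly.eq_of_irreducible_of_monic (minpoly.irreducible (Algebra.IsIntegral.isIntegral x))
          hy.2 (minpoly.monic (Algebra.IsIntegral.isIntegral x))
      obtain ⟨σ, hσ⟩ := (Normal.minpoly_eq_iff_mem_orbit L).1 h4.symm
      have h5 : σ (algebraMap L0 L x) = y := hσ
      have h6 : β y = y := by
        rw [← h5, key]
      change y ∈ IntermediateField.fixedField (Subgroup.zpowers β)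
      rw [IntermediateField.mem_fixedField_iff]
      rintro _ ⟨i, rfl⟩
      have h7 : β ∈ MulAction.stabilizer Gal(L/K) y := h6
      exact Subgroup.zpow_mem _ h7 i
    have h8 : (⊤ : IntermediateField K L) ≤ IntermediateField.fixedField (Subgroup.zpowers β) := by
      rw [← hnc.adjoin_rootSet]
      exact iSup_le h3
    ext x
    have h9 : x ∈ IntermediateField.fixedField (Subgroup.zpowers β) := h8 IntermediateField.mem_top
    rw [IntermediateField.mem_fixedField_iff] at h9
    exact congrArg _ (h9 β (Subgroup.mem_zpowers β))

theorem exists_L (K M : Type) [Field K] [NumberField K] [Field M] [NumberField M] [Algebra K M]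
    [IsGalois K M] (f : M[X]) (hf : f ≠ 0) :
    ∃ (L : Type) (_ : Field L) (_ : NumberField L) (_ : Algebra K L) (_ : Algebra M L)
      (_ : IsScalarTower K M L), IsGalois K L ∧ (f.map (algebraMap M L)).Splits ∧
      ∀ β : Gal(L/K), (∀ x : M, β (algebraMap M L x) = algebraMap M L x) →
        (∀ (σ : Gal(L/K)) (b : L), aeval b f = 0 → β (σ b) = σ b) → β = 1 := by
  let L0 := f.SplittingField
  let Ω := AlgebraicClosure L0
  have f0 : FiniteDimensional K L0 := FiniteDimensional.trans K M L0
  have t1 : IsScalarTower K L0 Ω := inferInstance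
  have ha : Algebra.IsAlgebraic K Ω := Algebra.IsAlgebraic.trans K L0 Ω
  have hac : IsAlgClosure K Ω := ⟨inferInstance, ha⟩
  have hn : Normal K Ω := IsAlgClosure.normal K Ω
  refine exists_L_aux K M L0 Ω f (IsSplittingField.splits _ f) ?_ hf
  rw [eq_top_iff, ← IntermediateField.toSubalgebra_le_toSubalgebra,
    IntermediateField.top_toSubalgebra, ← IsSplittingField.adjoin_rootSet L0 f]
  exact IntermediateField.algebra_adjoin_le_adjoin _ _

end Pool.Agent.H46.SP
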