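import Pool.Agent.H46.SP.ExistL

/-! Existence of the small field. -/

set_option autoImplicit false
set_option linter.unusedSectionVars false

namespace Pool.Agent.H46.SP

open NumberField IsDedekindDomain Polynomial
open scoped Pointwise

theorem finite_small (K : Type) [Field K] [NumberField K] (X : ℕ) :
    {v : HeightOneSpectrum (𝓞 K) | Nat.card (𝓞 K ⧸ v.asIdeal) ≤ X}.Finite := by
  have h1 := Ideal.finite_setOfPred_absNorm_le (S := 𝓞 K) X
  refine Set.Finite.of_finite_image (f := fun v : HeightOneSpectrum (𝓞 K) => v.asIdeal)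
    (h1.subset ?_) ?_
  · rintro _ ⟨v, hv, rfl⟩
    exact hv
  · intro v _ w _ h
    exact HeightOneSpectrum.ext h

theorem exists_other (K : Type) [Field K] [NumberField K] (v : HeightOneSpectrum (𝓞 K)) :
    ∃ u : HeightOneSpectrum (𝓞 K), u ≠ v := by
  have h1 : ∀ l : ℕ, l.Prime → (l : 𝓞 K) ∉ v.asIdeal → ∃ u : HeightOneSpectrum (𝓞 K), u ≠ v := by
    intro l hl hlv
    have hsp : (Ideal.span {(l : ℤ)}).IsPrime :=
      (Ideal.span_singleton_prime (by exact_mod_cast hl.ne_zero)).2 (Nat.prime_iff_prime_int.1 hl)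
    obtain ⟨P, -, hP, hPl⟩ := Ideal.exists_ideal_over_prime_of_isIntegral (S := 𝓞 K)
      (Ideal.span {(l : ℤ)}) ⊥ (by
        rw [← RingHom.ker_eq_comap_bot, (RingHom.injective_iff_ker_eq_bot _).1
          (FaithfulSMul.algebraMap_injective ℤ (𝓞 K))]
        exact bot_le)
    have hlP : (l : 𝓞 K) ∈ P := by
      have h2 : (l : ℤ) ∈ Ideal.comap (algebraMap ℤ (𝓞 K)) P := by
        rw [hPl]
        exact Ideal.mem_span_singleton_self _
      have h3 : algebraMap ℤ (𝓞 K) (l : ℤ) ∈ P := h2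
      rwa [map_natCast] at h3
    have hP0 : P ≠ ⊥ := by
      rintro rfl
      rw [Ideal.mem_bot] at hlP
      exact hl.ne_zero (by exact_mod_cast hlP)
    refine ⟨⟨P, hP, hP0⟩, ?_⟩
    rintro rfl
    exact hlv hlP
  by_cases h2 : ((2 : ℕ) : 𝓞 K) ∈ v.asIdeal
  · by_cases h3 : ((3 : ℕ) : 𝓞 K) ∈ v.asIdeal
    · exfalso
      have h4 := v.asIdeal.sub_mem h3 h2
      have h5 : ((3 : ℕ) : 𝓞 K) - ((2 : ℕ) : 𝓞 K) = 1 := by push_cast; norm_num
      rw [h5] at h4
      exact v.isPrime.ne_top ((Ideal.eq_top_iff_one _).2 h4)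
    · exact h1 3 Nat.prime_three h3
  · exact h1 2 Nat.prime_two h2

theorem exists_good (K : Type) [Field K] [NumberField K] {X n : ℕ} (hn : 3 ≤ n)
    (hX : X < 2 ^ (n - 1)) (v : HeightOneSpectrum (𝓞 K)) : ∃ f : (𝓞 K)[X], Good X n v f := by
  classical
  obtain ⟨u, hu⟩ := exists_other K v
  let T := (finite_small K X).toFinset
  obtain ⟨f, hm, hd, h1, h2⟩ := exists_two_kinds K ((insert u T).erase v) {v}
    (by
      rw [Finset.disjoint_singleton_right]
      exact Finset.notMem_erase v _) hn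
  have hi := h1 u (Finset.mem_erase.2 ⟨hu, Finset.mem_insert_self u T⟩)
  refine ⟨f, hm, hd, hX, fun w hw hwX => ?_, h2 v (Finset.mem_singleton_self v), ?_⟩
  · refine h1 w (Finset.mem_erase.2 ⟨hw, Finset.mem_insert_of_mem ?_⟩)
    exact (Set.Finite.mem_toFinset _).2 hwX
  · exact hm.irreducible_of_irreducible_map _ _ hi

theorem exists_M (K : Type) [Field K] [NumberField K] (X : ℕ) :
    ∃ (M : Type) (_ : Field M) (_ : NumberField M) (_ : Algebra K M), IsGalois K M ∧
      ∃ f1 f2 : HeightOneSpectrum (𝓞 K) → (𝓞 K)[X],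
        (∀ v, Good X (X + 3) v (f1 v) ∧ Good X (X + 4) v (f2 v)) ∧
        (∀ v : HeightOneSpectrum (𝓞 K), Nat.card (𝓞 K ⧸ v.asIdeal) ≤ X →
          ((f1 v).map (algebraMap (𝓞 K) M)).Splits ∧ ((f2 v).map (algebraMap (𝓞 K) M)).Splits) ∧
        ∀ β : Gal(M/K), (∀ v : HeightOneSpectrum (𝓞 K), Nat.card (𝓞 K ⧸ v.asIdeal) ≤ X →
          ∀ b : M, (aeval b (f1 v) = 0 ∨ aeval b (f2 v) = 0) → β b = b) → β = 1 := by
  classical
  have hX : ∀ m : ℕ, m < 2 ^ m := fun m => Nat.lt_two_pow_self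
  choose f1 hf1 using exists_good K (X := X) (n := X + 3) (by omega)
    ((hX X).trans_le (Nat.pow_le_pow_right (by norm_num) (by omega)))
  choose f2 hf2 using exists_good K (X := X) (n := X + 4) (by omega)
    ((hX X).trans_le (Nat.pow_le_pow_right (by norm_num) (by omega)))
  let T := (finite_small K X).toFinset
  let P : K[X] := ∏ v ∈ T, ((f1 v).map (algebraMap (𝓞 K) K) * (f2 v).map (algebraMap (𝓞 K) K))
  have hP0 : P ≠ 0 := by
    refine Finset.prod_ne_zero_iff.2 fun v _ => mul_ne_zero ?_ ?_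
    · exact ((hf1 v).monic.map _).ne_zero
    · exact ((hf2 v).monic.map _).ne_zero
  let M := P.SplittingField
  have hN : NumberField M := NumberField.of_module_finite K M
  have hn : Normal K M := Normal.of_isSplittingField P
  have hG : IsGalois K M := { to_isSeparable := inferInstance, to_normal := hn }
  refine ⟨M, inferInstance, hN, inferInstance, hG, f1, f2, fun v => ⟨hf1 v, hf2 v⟩,
    fun v hv => ?_, fun β hβ => ?_⟩
  · have hvT : v ∈ T := (Set.Finite.mem_toFinset _).2 hv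
    have hsP : (P.map (algebraMap K M)).Splits := IsSplittingField.splits M P
    have hdvd : ∀ f : (𝓞 K)[X], f.map (algebraMap (𝓞 K) K) ∣ P →
        (f.map (algebraMap (𝓞 K) M)).Splits := by
      intro f hf
      have h1 : f.map (algebraMap (𝓞 K) M) =
          (f.map (algebraMap (𝓞 K) K)).map (algebraMap K M) := by
        rw [Polynomial.map_map, ← IsScalarTower.algebraMap_eq]
      rw [h1]
      exact hsP.of_dvd (map_ne_zero hP0) (Polynomial.map_dvd _ hf)
    have h2 : (f1 v).map (algebraMap (𝓞 K) K) * (f2 v).map (algebraMap (𝓞 K) K) ∣ P :=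
      Finset.dvd_prod_of_mem _ hvT
    exact ⟨hdvd _ ((dvd_mul_right _ _).trans h2), hdvd _ ((dvd_mul_left _ _).trans h2)⟩
  · have h1 : (⊤ : Subalgebra K M) ≤
        (IntermediateField.fixedField (Subgroup.zpowers β)).toSubalgebra := by
      rw [← IsSplittingField.adjoin_rootSet M P]
      refine Algebra.adjoin_le ?_
      intro b hb
      rw [mem_rootSet] at hb
      have h2 := hb.2
      rw [map_prod, Finset.prod_eq_zero_iff] at h2
      obtain ⟨v, hvT, hv⟩ := h2
      rw [map_mul, mul_eq_zero, aeval_map_algebraMap, aeval_map_algebraMap] at hv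
      have h3 : β b = b := hβ v ((Set.Finite.mem_toFinset (finite_small K X)).1 hvT) b hv
      change b ∈ IntermediateField.fixedField (Subgroup.zpowers β)
      rw [IntermediateField.mem_fixedField_iff]
      rintro _ ⟨i, rfl⟩
      have h7 : β ∈ MulAction.stabilizer Gal(M/K) b := h3
      exact Subgroup.zpow_mem _ h7 i
    ext x
    have h9 : x ∈ IntermediateField.fixedField (Subgroup.zpowers β) := h1 Algebra.mem_top
    rw [IntermediateField.mem_fixedField_iff] at h9
    exact h9 β (Subgroup.mem_zpowers β)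

theorem root_eq_sep {K L : Type} [Field K] [NumberField K] [Field L] [NumberField L] [Algebra K L]
    {v : HeightOneSpectrum (𝓞 K)} {f : (𝓞 K)[X]}
    (hf : (f.map (Ideal.Quotient.mk v.asIdeal)).Separable) (w : HeightOneSpectrum (𝓞 L))
    (hw : w.asIdeal.under (𝓞 K) = v.asIdeal) {α β : 𝓞 L} (hα : aeval α f = 0)
    (hβ : aeval β f = 0) (h : Ideal.Quotient.mk w.asIdeal α = Ideal.Quotient.mk w.asIdeal β) :
    α = β := by
  have hlies : w.asIdeal.LiesOver v.asIdeal := ⟨hw.symm⟩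
  have h1 : (algebraMap (𝓞 K ⧸ v.asIdeal) (𝓞 L ⧸ w.asIdeal)).comp (Ideal.Quotient.mk v.asIdeal) =
      (Ideal.Quotient.mk w.asIdeal).comp (algebraMap (𝓞 K) (𝓞 L)) := rfl
  refine sep_inj (Ideal.Quotient.mk w.asIdeal) (f := f.map (algebraMap (𝓞 K) (𝓞 L))) ?_ ?_ ?_ h
  · rw [Polynomial.map_map, ← h1, ← Polynomial.map_map]
    exact hf.map
  · rw [eval_map_algebraMap, hα]
  · rw [eval_map_algebraMap, hβ]

theorem Good.sep {K : Type} [Field K] [NumberField K] {X n : ℕ} {v : HeightOneSpectrum (𝓞 K)}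
    {f : (𝓞 K)[X]} (hf : Good X n v f) {u : HeightOneSpectrum (𝓞 K)}
    (hu : Nat.card (𝓞 K ⧸ u.asIdeal) ≤ X) : (f.map (Ideal.Quotient.mk u.asIdeal)).Separable := by
  by_cases huv : u = v
  · subst huv
    exact hf.root.separable
  · exact PerfectField.separable_of_irreducible (K := 𝓞 K ⧸ u.asIdeal) (hf.other u huv hu)

/-- inertia groups -/
theorem inertia_M {K M : Type} [Field K] [NumberField K] [Field M] [NumberField M] [Algebra K M]
    [IsGalois K M] {X : ℕ} {f1 f2 : HeightOneSpectrum (𝓞 K) → (𝓞 K)[X]}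
    (h12 : ∀ v, Good X (X + 3) v (f1 v) ∧ Good X (X + 4) v (f2 v))
    (ht : ∀ β : Gal(M/K), (∀ v : HeightOneSpectrum (𝓞 K), Nat.card (𝓞 K ⧸ v.asIdeal) ≤ X →
          ∀ b : M, (aeval b (f1 v) = 0 ∨ aeval b (f2 v) = 0) → β b = b) → β = 1)
    {w : HeightOneSpectrum (𝓞 M)} {u : HeightOneSpectrum (𝓞 K)}
    (hwu : w.asIdeal.under (𝓞 K) = u.asIdeal) (hu : Nat.card (𝓞 K ⧸ u.asIdeal) ≤ X)
    {β : Gal(M/K)} (hβ : ∀ x : 𝓞 M, β • x - x ∈ w.asIdeal) : β = 1 := by
  refine ht β fun v hv b hb => ?_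
  have key : ∀ (n : ℕ) (f : (𝓞 K)[X]), Good X n v f → aeval b f = 0 → β b = b := by
    intro n f hf hfb
    obtain ⟨b', hb', hfb'⟩ := exists_int hf.monic hfb
    have h1 : β • b' = b' :=
      root_eq_sep (hf.sep hu) w hwu (aeval_smul β hfb') hfb' (Ideal.Quotient.eq.2 (hβ b'))
    rw [← hb']
    exact congrArg (algebraMap (𝓞 M) M) h1
  rcases hb with hb | hb
  · exact key _ _ (h12 v).1 hb
  · exact key _ _ (h12 v).2 hb

end Pool.Agent.H46.SP
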