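import Pool.Agent.H46.SP.FinF

/-! Intermediate fields with at most one small prime. -/

set_option autoImplicit false
set_option linter.unusedSectionVars false

namespace Pool.Agent.H46.SP

open NumberField IsDedekindDomain Polynomial
open scoped Pointwise

section
variable {K L : Type} [Field K] [NumberField K] [Field L] [NumberField L] [Algebra K L]

/-- the integers in a subfield -/
def RF (F : IntermediateField K L) : Subring (𝓞 L) :=
  F.toSubfield.toSubring.comap (algebraMap (𝓞 L) L)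

theorem mem_RF {F : IntermediateField K L} {x : 𝓞 L} : x ∈ RF F ↔ (x : L) ∈ F := Iff.rfl

theorem RF_eq (F : IntermediateField K L) : RF F = (algebraMap (𝓞 F) (𝓞 L)).range := by
  ext x
  rw [mem_RF, RingHom.mem_range]
  constructor
  · intro h
    have h1 : IsIntegral ℤ (⟨x, h⟩ : F) := by
      have h2 : IsIntegral ℤ (algebraMap F L ⟨x, h⟩) := x.2
      exact (isIntegral_algebraMap_iff (algebraMap F L).injective).1 h2
    refine ⟨⟨⟨x, h⟩, h1⟩, ?_⟩
    apply RingOfIntegers.coe_injective (K := L)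
    rfl
  · rintro ⟨y, rfl⟩
    exact (y : F).2

/-- small primes -/
def Small (X : ℕ) (F : IntermediateField K L) (w : Ideal (𝓞 L)) : Prop :=
  w.IsPrime ∧ w ≠ ⊥ ∧ Nat.card ((RF F).map (Ideal.Quotient.mk w)) ≤ X

theorem finite_of_ne_bot {w : Ideal (𝓞 L)} (hw : w ≠ ⊥) : Finite (𝓞 L ⧸ w) :=
  Ideal.finiteQuotientOfFreeOfNeBot _ hw

theorem Small.mono {X : ℕ} {F F' : IntermediateField K L} (h : F ≤ F') {w : Ideal (𝓞 L)}
    (hw : Small X F' w) : Small X F w := by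
  obtain ⟨h1, h2, h3⟩ := hw
  have := finite_of_ne_bot h2
  refine ⟨h1, h2, le_trans ?_ h3⟩
  have h4 : (RF F).map (Ideal.Quotient.mk w) ≤ (RF F').map (Ideal.Quotient.mk w) := by
    rintro _ ⟨y, hy, rfl⟩
    exact ⟨y, h hy, rfl⟩
  exact Nat.card_le_card_of_injective (Subring.inclusion h4) (Subring.inclusion_injective h4)

theorem smul_ne_bot {w : Ideal (𝓞 L)} (hw : w ≠ ⊥) (σ : Gal(L/K)) : σ • w ≠ ⊥ := by
  intro h
  apply hw
  have h1 := congrArg (fun I => σ⁻¹ • I) h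
  simpa using h1

theorem Small.smul {X : ℕ} {F : IntermediateField K L} {w : Ideal (𝓞 L)} (hw : Small X F w)
    (σ : Gal(L/K)) : Small X (F.map (σ : L →ₐ[K] L)) (σ • w) := by
  obtain ⟨h1, h2, h3⟩ := hw
  have := finite_of_ne_bot h2
  have hf : Finite (𝓞 L ⧸ (σ • w)) := finite_of_ne_bot (smul_ne_bot h2 σ)
  refine ⟨inferInstance, smul_ne_bot h2 σ, le_trans ?_ h3⟩
  let e : 𝓞 L ⧸ (σ • w) →+* 𝓞 L ⧸ w := Ideal.Quotient.lift (σ • w)
    ((Ideal.Quotient.mk w).comp (MulSemiringAction.toRingHom Gal(L/K) (𝓞 L) σ⁻¹)) (by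
      intro x hx
      rw [Ideal.mem_pointwise_smul_iff_inv_smul_mem] at hx
      exact Ideal.Quotient.eq_zero_iff_mem.2 hx)
  have he : ∀ x : 𝓞 L, e (Ideal.Quotient.mk _ x) = Ideal.Quotient.mk w (σ⁻¹ • x) := fun x => rfl
  have hinj : Function.Injective e := by
    rw [injective_iff_map_eq_zero]
    intro x
    obtain ⟨x, rfl⟩ := Ideal.Quotient.mk_surjective x
    intro hx
    rw [he, Ideal.Quotient.eq_zero_iff_mem, ← Ideal.mem_pointwise_smul_iff_inv_smul_mem] at hx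
    exact Ideal.Quotient.eq_zero_iff_mem.2 hx
  refine Nat.card_le_card_of_injective (fun x => ⟨e x.1, ?_⟩) ?_
  · obtain ⟨x, y, hy, rfl⟩ := x
    rw [he]
    refine ⟨σ⁻¹ • y, ?_, rfl⟩
    obtain ⟨z, hz, hzy⟩ := hy
    change σ⁻¹ ((y : 𝓞 L) : L) ∈ F
    have h4 : σ z = (y : L) := hzy
    rw [← h4, ← AlgEquiv.mul_apply, inv_mul_cancel]
    exact hz
  · intro x y hxy
    have h5 : e x.1 = e y.1 := congrArg (fun z => z.1) hxy
    exact Subtype.ext (hinj h5)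

/-- the fields with at most one small prime -/
def Fam (X : ℕ) : Set (IntermediateField K L) :=
  {F | ∀ w w', Small X F w → Small X F w' → (∃ σ : Gal(L/K), σ • w = w') ∧
    ∀ σ : Gal(L/K), σ • w = w' → σ ∈ F.fixingSubgroup}

theorem Fam.sup {X : ℕ} {F F' : IntermediateField K L} (hF : F ∈ Fam X) (hF' : F' ∈ Fam X) :
    F ⊔ F' ∈ Fam X := by
  intro w w' hw hw'
  obtain ⟨h1, h2⟩ := hF w w' (hw.mono le_sup_left) (hw'.mono le_sup_left)
  obtain ⟨-, h3⟩ := hF' w w' (hw.mono le_sup_right) (hw'.mono le_sup_right)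
  refine ⟨h1, fun σ hσ => ?_⟩
  rw [IntermediateField.fixingSubgroup_sup]
  exact ⟨h2 σ hσ, h3 σ hσ⟩

theorem map_map_inv (F : IntermediateField K L) (σ : Gal(L/K)) :
    (F.map (σ : L →ₐ[K] L)).map ((σ⁻¹ : Gal(L/K)) : L →ₐ[K] L) = F := by
  ext x
  constructor
  · rintro ⟨_, ⟨y, hy, rfl⟩, rfl⟩
    have h : ((σ⁻¹ : Gal(L/K)) : L →ₐ[K] L) ((σ : L →ₐ[K] L) y) = y := by
      change σ⁻¹ (σ y) = y
      rw [← AlgEquiv.mul_apply, inv_mul_cancel, AlgEquiv.one_apply]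
    change ((σ⁻¹ : Gal(L/K)) : L →ₐ[K] L) ((σ : L →ₐ[K] L) y) ∈ F
    rw [h]
    exact hy
  · intro hx
    refine ⟨σ x, ⟨x, hx, rfl⟩, ?_⟩
    change σ⁻¹ (σ x) = x
    rw [← AlgEquiv.mul_apply, inv_mul_cancel, AlgEquiv.one_apply]

theorem Fam.conj {X : ℕ} {F : IntermediateField K L} (hF : F ∈ Fam X) (ρ : Gal(L/K)) :
    F.map (ρ : L →ₐ[K] L) ∈ Fam X := by
  intro w w' hw hw'
  have h1 := hw.smul ρ⁻¹
  have h2 := hw'.smul ρ⁻¹
  rw [map_map_inv] at h1 h2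
  obtain ⟨⟨τ, hτ⟩, h4⟩ := hF _ _ h1 h2
  constructor
  · refine ⟨ρ * τ * ρ⁻¹, ?_⟩
    rw [mul_smul, mul_smul, hτ, smul_inv_smul]
  · intro σ hσ
    have h5 : ρ⁻¹ * σ * ρ ∈ F.fixingSubgroup := by
      apply h4
      rw [mul_smul, mul_smul, smul_inv_smul, hσ]
    rw [IntermediateField.mem_fixingSubgroup_iff]
    rintro x ⟨y, hy, rfl⟩
    have h6 : (ρ⁻¹ * σ * ρ) y = y := (IntermediateField.mem_fixingSubgroup_iff _ _).1 h5 y hy
    have h7 := congrArg ρ h6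
    rw [← AlgEquiv.mul_apply] at h7
    have h8 : ρ * (ρ⁻¹ * σ * ρ) = σ * ρ := by group
    rw [h8] at h7
    exact h7

theorem card_map (F : IntermediateField K L) (w : Ideal (𝓞 L)) :
    Nat.card ((RF F).map (Ideal.Quotient.mk w)) = Nat.card (𝓞 F ⧸ w.under (𝓞 F)) := by
  have h1 : (RF F).map (Ideal.Quotient.mk w) =
      ((Ideal.Quotient.mk w).comp (algebraMap (𝓞 F) (𝓞 L))).range := by
    rw [RF_eq, RingHom.map_range]
  have h2 : RingHom.ker ((Ideal.Quotient.mk w).comp (algebraMap (𝓞 F) (𝓞 L))) =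
      w.under (𝓞 F) := by
    rw [← RingHom.comap_ker, Ideal.mk_ker]
  rw [h1, ← h2]
  exact (Nat.card_congr (RingHom.quotientKerEquivRange _).toEquiv).symm

/-- the fields in the family have at most one small prime -/
theorem Fam.unique {X : ℕ} {F : IntermediateField K L} (hF : F ∈ Fam X)
    {v v' : HeightOneSpectrum (𝓞 F)} (hv : Ideal.absNorm v.asIdeal ≤ X)
    (hv' : Ideal.absNorm v'.asIdeal ≤ X) : v = v' := by
  have h1 : ∀ u : HeightOneSpectrum (𝓞 F), Ideal.absNorm u.asIdeal ≤ X →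
      ∃ w : Ideal (𝓞 L), Small X F w ∧ w.under (𝓞 F) = u.asIdeal := by
    intro u hu
    obtain ⟨w, -, hwp, hw⟩ := Ideal.exists_ideal_over_prime_of_isIntegral (S := 𝓞 L) u.asIdeal ⊥
      (by
        rw [← RingHom.ker_eq_comap_bot, (RingHom.injective_iff_ker_eq_bot _).1
          (FaithfulSMul.algebraMap_injective (𝓞 F) (𝓞 L))]
        exact bot_le)
    refine ⟨w, ⟨hwp, ?_, ?_⟩, hw⟩
    · rintro rfl
      apply u.ne_bot
      rw [← hw, ← RingHom.ker_eq_comap_bot, (RingHom.injective_iff_ker_eq_bot _).1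
          (FaithfulSMul.algebraMap_injective (𝓞 F) (𝓞 L))]
    · rw [card_map]
      change Nat.card (𝓞 F ⧸ Ideal.comap (algebraMap (𝓞 F) (𝓞 L)) w) ≤ X
      rw [hw]
      exact hu
  obtain ⟨w, hw, e⟩ := h1 v hv
  obtain ⟨w', hw', e'⟩ := h1 v' hv'
  obtain ⟨⟨σ, hσ⟩, h2⟩ := hF w w' hw hw'
  have h3 := h2 σ hσ
  have h4 : ∀ x : 𝓞 F, σ • (algebraMap (𝓞 F) (𝓞 L) x) = algebraMap (𝓞 F) (𝓞 L) x := by
    intro x
    apply RingOfIntegers.coe_injective (K := L)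
    exact h3 ⟨_, (x : F).2⟩
  apply HeightOneSpectrum.ext
  rw [← e, ← e']
  ext x
  change algebraMap (𝓞 F) (𝓞 L) x ∈ w ↔ algebraMap (𝓞 F) (𝓞 L) x ∈ w'
  rw [← hσ]
  conv_rhs => rw [← h4 x]
  rw [Ideal.smul_mem_pointwise_smul_iff]

end

end Pool.Agent.H46.SP
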