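import Pool.Agent.H46.SP.Poly

/-! Roots of polynomials in finite fields. -/

set_option autoImplicit false
set_option linter.unusedSectionVars false

namespace Pool.Agent.H46.SP

open Polynomial

/-- roots are determined by their reductions -/
theorem sep_inj {A κ : Type} [CommRing A] [IsDomain A] [Field κ] (φ : A →+* κ) {f : A[X]}
    (hs : (f.map φ).Separable) {r r' : A} (hr : f.eval r = 0) (hr' : f.eval r' = 0)
    (h : φ r = φ r') : r = r' := by
  by_contra hne
  obtain ⟨g, hg⟩ := dvd_iff_isRoot.2 (show f.IsRoot r from hr)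
  have h1 : g.eval r' = 0 := by
    have h2 := hr'
    rw [hg, eval_mul, eval_sub, eval_X, eval_C] at h2
    exact (mul_eq_zero.1 h2).resolve_left (sub_ne_zero.2 (Ne.symm hne))
  obtain ⟨g', hg'⟩ := dvd_iff_isRoot.2 (show g.IsRoot r' from h1)
  have h3 : f.map φ = (X - C (φ r)) * (X - C (φ r)) * g'.map φ := by
    rw [hg, hg', Polynomial.map_mul, Polynomial.map_mul, Polynomial.map_sub, Polynomial.map_sub,
      map_X, map_C, map_C, ← h]
    ring
  have h4 : IsUnit (X - C (φ r)) := hs.squarefree _ ⟨_, h3⟩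
  exact not_isUnit_X_sub_C _ h4

section
variable {k κ : Type} [Field k] [Finite k] [Field κ] [Finite κ] [Algebra k κ]

theorem int_el (r : κ) : IsIntegral k r := Algebra.IsIntegral.isIntegral r

theorem natDegree_minpoly {h : k[X]} (hi : Irreducible h) {r : κ} (hr : aeval r h = 0) :
    (minpoly k r).natDegree = h.natDegree := by
  have h1 := minpoly.eq_of_irreducible hi hr
  have h2 := congrArg Polynomial.natDegree h1
  rw [← h2, natDegree_mul_C]
  exact inv_ne_zero (leadingCoeff_ne_zero.2 hi.ne_zero)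

theorem dvd_finrank {h : k[X]} (hi : Irreducible h) {r : κ} (hr : aeval r h = 0) :
    h.natDegree ∣ Module.finrank k κ := by
  rw [← natDegree_minpoly hi hr, ← IntermediateField.adjoin.finrank (int_el r)]
  exact ⟨_, (Module.finrank_mul_finrank k (IntermediateField.adjoin k {r}) κ).symm⟩

theorem card_eq {h : k[X]} (hi : Irreducible h) {r : κ} (hr : aeval r h = 0) :
    ∃ c : ℕ, Nat.card κ = Nat.card k ^ (h.natDegree * c) := by
  obtain ⟨c, hc⟩ := dvd_finrank hi hr
  exact ⟨c, by rw [← hc, Module.natCard_eq_pow_finrank (K := k) (V := κ)]⟩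

/-- subrings which contain a root are large -/
theorem le_card {h : k[X]} (hi : Irreducible h) {r : κ} (hr : aeval r h = 0) (S : Subring κ)
    (hk : ∀ x : k, algebraMap k κ x ∈ S) (hrS : r ∈ S) : 2 ^ h.natDegree ≤ Nat.card S := by
  let l := Algebra.adjoin k {r}
  have h1 : ∀ x : κ, x ∈ l → x ∈ S := by
    intro x hx
    have h2 : l ≤ ({ S with algebraMap_mem' := hk } : Subalgebra k κ) := by
      refine Algebra.adjoin_le ?_
      rw [Set.singleton_subset_iff]
      exact hrS
    exact h2 hx
  have h2 : Nat.card (IntermediateField.adjoin k {r}) = Nat.card k ^ h.natDegree := by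
    rw [Module.natCard_eq_pow_finrank (K := k), IntermediateField.adjoin.finrank (int_el r),
      natDegree_minpoly hi hr]
  have h3 : Nat.card (IntermediateField.adjoin k {r}) ≤ Nat.card S := by
    refine Nat.card_le_card_of_injective (fun x => ⟨x.1, h1 _ ?_⟩) ?_
    · have h4 := x.2
      rw [← IntermediateField.mem_toSubalgebra,
        IntermediateField.adjoin_simple_toSubalgebra_of_isAlgebraic (int_el r).isAlgebraic] at h4
      exact h4
    · intro x y hxy
      have h5 : x.1 = y.1 := congrArg (fun z : S => z.1) hxy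
      exact Subtype.ext h5
  calc 2 ^ h.natDegree ≤ Nat.card k ^ h.natDegree :=
        Nat.pow_le_pow_left (Finite.one_lt_card (α := k)) _
    _ = _ := h2.symm
    _ ≤ _ := h3

theorem comm_aut (σ τ : Gal(κ/k)) (x : κ) : σ (τ x) = τ (σ x) := by
  have h1 : IsCyclic Gal(κ/k) := inferInstance
  obtain ⟨g, hg⟩ := h1.exists_generator
  obtain ⟨i, rfl⟩ := hg σ
  obtain ⟨j, rfl⟩ := hg τ
  have h2 : Commute (g ^ i) (g ^ j) := (Commute.refl g).zpow_zpow i j
  exact DFunLike.congr_fun h2 x

/-- an automorphism which fixes a root of an irreducible polynomial fixes all roots -/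
theorem fix_of_root {h : k[X]} (hi : Irreducible h) {r r' : κ} (hr : aeval r h = 0)
    (hr' : aeval r' h = 0) (τ : Gal(κ/k)) (hτ : τ r = r) : τ r' = r' := by
  have h1 : minpoly k r = minpoly k r' := by
    rw [← minpoly.eq_of_irreducible hi hr, ← minpoly.eq_of_irreducible hi hr']
  obtain ⟨σ, hσ⟩ := Normal.minpoly_eq_iff_mem_orbit κ |>.1 h1.symm
  have h2 : σ r = r' := hσ
  rw [← h2, comm_aut, hτ]

/-- automorphisms of order prime to the degree -/
theorem fix_of_coprime {h : k[X]} (hi : Irreducible h) {r : κ} (hr : aeval r h = 0) (τ : Gal(κ/k))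
    {q : ℕ} (hτ : τ ^ q = 1) (hq : q.Coprime h.natDegree) : τ r = r := by
  let l := IntermediateField.adjoin k {r}
  have h1 : Normal k l := inferInstance
  let τ' : Gal(l/k) := AlgEquiv.restrictNormalHom l τ
  have h2 : τ' ^ q = 1 := by
    rw [← map_pow, hτ, map_one]
  have h3 : τ' ^ h.natDegree = 1 := by
    rw [← natDegree_minpoly hi hr, ← IntermediateField.adjoin.finrank (int_el r),
      ← IsGalois.card_aut_eq_finrank]
    exact pow_card_eq_one'
  have h4 : orderOf τ' = 1 := Nat.eq_one_of_dvd_coprimes hq (orderOf_dvd_of_pow_eq_one h2)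
    (orderOf_dvd_of_pow_eq_one h3)
  have h5 : τ' = 1 := orderOf_eq_one_iff.1 h4
  have h6 := AlgEquiv.restrictNormal_commutes τ l ⟨r, IntermediateField.mem_adjoin_simple_self k r⟩
  have h7 : (AlgEquiv.restrictNormal τ l) = 1 := h5
  rw [h7] at h6
  exact h6.symm

end

theorem dvd_of_card {s y a q : ℕ} (hq : q.Prime) (hy : IsPrimePow y) (hy2 : y < 2 ^ q)
    (h : s ^ q = y ^ a) : q ∣ a := by
  obtain ⟨p, e, hp, he, rfl⟩ := (isPrimePow_nat_iff _).1 hy
  have h1 : s ∣ p ^ (e * a) := by
    rw [pow_mul, ← h]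
    exact dvd_pow_self s hq.ne_zero
  obtain ⟨t, -, rfl⟩ := (Nat.dvd_prime_pow hp).1 h1
  rw [← pow_mul, ← pow_mul] at h
  have h2 : t * q = e * a := Nat.pow_right_injective hp.two_le h
  have h3 : e < q := by
    by_contra hle
    push Not at hle
    have h4 : 2 ^ q ≤ p ^ e := (Nat.pow_le_pow_right (by norm_num) hle).trans
      (Nat.pow_le_pow_left hp.two_le e)
    omega
  rcases (Nat.Prime.dvd_mul hq).1 ⟨t, by rw [← h2, mul_comm]⟩ with h4 | h4
  · exact absurd (Nat.le_of_dvd he h4) (by omega)
  · exact h4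

end Pool.Agent.H46.SP
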