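import Mathlib

/-! Polynomials over rings of integers with prescribed reductions; finite fields. -/

set_option autoImplicit false

namespace Pool.Agent.H46.SP

open NumberField IsDedekindDomain Polynomial

/-- monic polynomials with prescribed reductions -/
theorem exists_monic_lift {A : Type} [CommRing A] [IsDedekindDomain A]
    (T : Finset (HeightOneSpectrum A)) (n : ℕ)
    (h : ∀ v : HeightOneSpectrum A, (A ⧸ v.asIdeal)[X]) (hm : ∀ v ∈ T, (h v).Monic)
    (hn : ∀ v ∈ T, (h v).natDegree = n) :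
    ∃ f : A[X], f.Monic ∧ f.natDegree = n ∧
      ∀ v ∈ T, f.map (Ideal.Quotient.mk v.asIdeal) = h v := by
  classical
  have h1 : ∀ k : ℕ, ∃ y : A, ∀ v ∈ T, Ideal.Quotient.mk v.asIdeal y = (h v).coeff k := by
    intro k
    obtain ⟨y, hy⟩ := IsDedekindDomain.exists_forall_sub_mem_ideal (s := T)
      (fun v : HeightOneSpectrum A => v.asIdeal) (fun _ => 1) (fun v _ => v.prime)
      (fun v _ w _ hvw h => hvw (HeightOneSpectrum.ext h))
      (fun v => Function.surjInv Ideal.Quotient.mk_surjective ((h v.1).coeff k))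
    refine ⟨y, fun v hv => ?_⟩
    have h2 := hy v hv
    rw [pow_one, ← Ideal.Quotient.eq, Function.surjInv_eq Ideal.Quotient.mk_surjective] at h2
    exact h2
  choose c hc using h1
  have hdeg : (∑ k ∈ Finset.range n, C (c k) * X ^ k : A[X]).degree < n := by
    refine (degree_sum_le _ _).trans_lt ((Finset.sup_lt_iff (WithBot.bot_lt_coe n)).2 ?_)
    intro k hk
    exact (degree_C_mul_X_pow_le k (c k)).trans_lt (WithBot.coe_lt_coe.2 (Finset.mem_range.1 hk))
  refine ⟨X ^ n + ∑ k ∈ Finset.range n, C (c k) * X ^ k, monic_X_pow_add hdeg, ?_, ?_⟩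
  · rw [natDegree_add_eq_left_of_degree_lt, natDegree_X_pow]
    rw [degree_X_pow]
    exact hdeg
  · intro v hv
    rw [Polynomial.map_add, Polynomial.map_pow, map_X, Polynomial.map_sum]
    conv_rhs => rw [(hm v hv).as_sum, hn v hv]
    congr 1
    refine Finset.sum_congr rfl fun k _ => ?_
    rw [Polynomial.map_mul, map_C, Polynomial.map_pow, map_X, hc k v hv]

/-- irreducible polynomials over finite fields -/
theorem exists_irred (k : Type) [Field k] [Finite k] {d : ℕ} (hd : d ≠ 0) :
    ∃ h : k[X], h.Monic ∧ Irreducible h ∧ h.natDegree = d := by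
  obtain ⟨p, hp⟩ := CharP.exists k
  have hpp : p.Prime := by
    rcases CharP.char_is_prime_or_zero k p with h | h
    · exact h
    · subst h
      exact absurd (inferInstance : Finite k) (fun _ => by
        have := CharP.charP_to_charZero k
        exact (Set.infinite_of_injective_forall_mem (s := (Set.univ : Set k))
          (Nat.cast_injective (R := k)) (fun _ => trivial)) (Set.toFinite _))
  have : Fact p.Prime := ⟨hpp⟩
  have : NeZero d := ⟨hd⟩
  let l := FiniteField.Extension k p d
  obtain ⟨α, hα⟩ := Field.exists_primitive_element k l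
  have hint : IsIntegral k α := Algebra.IsIntegral.isIntegral α
  refine ⟨minpoly k α, minpoly.monic hint, minpoly.irreducible hint, ?_⟩
  rw [← IntermediateField.adjoin.finrank hint, hα, IntermediateField.finrank_top',
    FiniteField.finrank_extension]

/-- the residue polynomials of the second kind -/
def IsRootMul {k : Type} [Field k] (f : k[X]) (n : ℕ) : Prop :=
  ∃ h : k[X], Irreducible h ∧ h.Monic ∧ h.natDegree + 1 = n ∧ 2 ≤ h.natDegree ∧ f = X * h

theorem exists_rootMul (k : Type) [Field k] [Finite k] {n : ℕ} (hn : 3 ≤ n) :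
    ∃ f : k[X], f.Monic ∧ f.natDegree = n ∧ IsRootMul f n := by
  obtain ⟨h, h1, h2, h3⟩ := exists_irred k (d := n - 1) (by omega)
  refine ⟨X * h, monic_X.mul h1, ?_, h, h2, h1, by omega, by omega, rfl⟩
  rw [natDegree_mul X_ne_zero h1.ne_zero, natDegree_X]
  omega

theorem IsRootMul.eval_zero_ne {k : Type} [Field k] {h : k[X]} (hi : Irreducible h)
    (hd : 2 ≤ h.natDegree) (x : k) : h.eval x ≠ 0 := by
  intro h0
  have h1 : h.natDegree = 1 :=
    natDegree_eq_of_degree_eq_some (degree_eq_one_of_irreducible_of_root hi h0)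
  omega

theorem IsRootMul.separable {k : Type} [Field k] [Finite k] {f : k[X]} {n : ℕ}
    (hf : IsRootMul f n) : f.Separable := by
  obtain ⟨h, h1, h2, h3, h4, rfl⟩ := hf
  refine Separable.mul separable_X (PerfectField.separable_of_irreducible h1) ?_
  refine (EuclideanDomain.isCoprime_of_dvd ?_ ?_)
  · rintro ⟨h5, -⟩
    exact X_ne_zero h5
  · intro z hz hz0 h5 h6
    have h7 : Associated z X := by
      rcases (irreducible_X (R := k)).dvd_iff.1 h5 with h | h
      · exact absurd h hz
      · exact h.symm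
    have h8 : (X : k[X]) ∣ h := h7.symm.dvd.trans h6
    rw [X_dvd_iff] at h8
    refine IsRootMul.eval_zero_ne h1 h4 0 ?_
    rw [← coeff_zero_eq_eval_zero]
    exact h8

instance finite_quot {F : Type} [Field F] [NumberField F] (v : HeightOneSpectrum (𝓞 F)) :
    Finite (𝓞 F ⧸ v.asIdeal) := Ideal.finiteQuotientOfFreeOfNeBot _ v.ne_bot

noncomputable instance field_quot {F : Type} [Field F] [NumberField F]
    (v : HeightOneSpectrum (𝓞 F)) : Field (𝓞 F ⧸ v.asIdeal) :=
  Ideal.Quotient.field v.asIdeal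

/-- polynomials with two kinds of reductions -/
theorem exists_two_kinds (F : Type) [Field F] [NumberField F]
    (T1 T2 : Finset (HeightOneSpectrum (𝓞 F))) (hT : Disjoint T1 T2) {n : ℕ} (hn : 3 ≤ n) :
    ∃ f : (𝓞 F)[X], f.Monic ∧ f.natDegree = n ∧
      (∀ v ∈ T1, Irreducible (f.map (Ideal.Quotient.mk v.asIdeal))) ∧
      (∀ v ∈ T2, IsRootMul (f.map (Ideal.Quotient.mk v.asIdeal)) n) := by
  classical
  have h1 : ∀ v : HeightOneSpectrum (𝓞 F), ∃ h : (𝓞 F ⧸ v.asIdeal)[X], h.Monic ∧
      h.natDegree = n ∧ (v ∈ T1 → Irreducible h) ∧ (v ∈ T2 → IsRootMul h n) := by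
    intro v
    by_cases hv : v ∈ T1
    · obtain ⟨h, h1, h2, h3⟩ := exists_irred (𝓞 F ⧸ v.asIdeal) (d := n) (by omega)
      exact ⟨h, h1, h3, fun _ => h2, fun h => absurd h (Finset.disjoint_left.1 hT hv)⟩
    · obtain ⟨h, h1, h2, h3⟩ := exists_rootMul (𝓞 F ⧸ v.asIdeal) hn
      exact ⟨h, h1, h2, fun h => absurd h hv, fun _ => h3⟩
  choose h hm hd hi hr using h1
  obtain ⟨f, hf1, hf2, hf3⟩ := exists_monic_lift (T1 ∪ T2) n h (fun v _ => hm v) (fun v _ => hd v)
  refine ⟨f, hf1, hf2, fun v hv => ?_, fun v hv => ?_⟩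
  · rw [hf3 v (Finset.mem_union_left _ hv)]
    exact hi v hv
  · rw [hf3 v (Finset.mem_union_right _ hv)]
    exact hr v hv

end Pool.Agent.H46.SP
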